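import Pool.Agent.H85.Rect.Sep

set_option autoImplicit false

/-!
# A concrete geometry

The points of level `k` are the sequences in `ZMod 3` which converge to `k` along a fixed
non-principal ultrafilter.
-/

namespace Pool.Agent.H85.Rect

open Filter PiNat

/-- ternary sequences -/
abbrev Z := ℕ → ZMod 3

/-- the sequences converging to `k` along the ultrafilter -/
def A (k : ℕ) : Set Z := {x | ∀ᶠ n in (hyperfilter ℕ : Filter ℕ), x n = (k : ZMod 3)}

theorem A_disj {k l : ℕ} {x : Z} (h : x ∈ A k) (h' : x ∈ A l) : (k : ZMod 3) = (l : ZMod 3) := by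
  obtain ⟨n, h1, h2⟩ := (Filter.Eventually.and h h').exists
  rw [← h1, ← h2]

/-- the sites -/
structure Site where
  /-- the level -/
  lv : ℕ
  /-- the point -/
  p : Z
  mem : p ∈ A lv

theorem Site.ext' {u v : Site} (h : u.lv = v.lv) (h' : u.p = v.p) : u = v := by
  cases u; cases v
  simp only at h h'
  subst h; subst h'
  rfl

theorem Site.p_ne {u v : Site} (h : (u.lv : ZMod 3) ≠ (v.lv : ZMod 3)) : u.p ≠ v.p := by
  intro h'
  exact h (A_disj u.mem (h' ▸ v.mem))

theorem natCast_eq {k l : ℕ} : (k : ZMod 3) = (l : ZMod 3) ↔ k % 3 = l % 3 := by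
  rw [ZMod.natCast_eq_natCast_iff']

noncomputable instance : Geo Site where
  lev := Site.lv
  adj u w := w.lv = u.lv + 1 ∨ u.lv = w.lv + 1
  sc u w := firstDiff u.p w.p
  sep u v := firstDiff u.p v.p + 1
  adj_symm := by rintro u w (h | h); exacts [Or.inr h, Or.inl h]
  adj_lev := fun h => h
  sc_symm u w := firstDiff_comm _ _
  sep_spec := by
    intro u v w hne hu hv
    have hp : u.p ≠ v.p := by
      intro h
      have h1 := natCast_eq.1 (A_disj u.mem (h ▸ v.mem))
      apply hne
      apply Site.ext' _ h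
      omega
    have h1 := min_firstDiff_le u.p w.p v.p hp
    rw [firstDiff_comm w.p v.p] at h1
    rcases min_le_iff.1 h1 with h2 | h2
    · left; omega
    · right; omega

theorem adj_p_ne {u w : Site} (h : Geo.adj u w) : u.p ≠ w.p := by
  apply Site.p_ne
  rw [Ne, natCast_eq]
  have h' : w.lv = u.lv + 1 ∨ u.lv = w.lv + 1 := h
  omega

/-- every cylinder contains points of each class -/
theorem exists_mem_A (k : ℕ) (x : Z) (m : ℕ) : ∃ t ∈ A k, t ∈ cylinder x m := by
  refine ⟨fun n => if n < m then x n else (k : ZMod 3), ?_, ?_⟩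
  · show ∀ᶠ n in (hyperfilter ℕ : Filter ℕ), (if n < m then x n else (k : ZMod 3)) = (k : ZMod 3)
    have h1 : ∀ᶠ n in (hyperfilter ℕ : Filter ℕ), m ≤ n := by
      apply hyperfilter_le_cofinite
      rw [Nat.cofinite_eq_atTop]
      exact eventually_ge_atTop m
    filter_upwards [h1] with n hn
    rw [if_neg (by omega)]
  · rw [mem_cylinder_iff]
    intro i hi
    simp [hi]

/-- every sequence converges along the ultrafilter -/
theorem exists_lim (x : Z) : ∃ j : ZMod 3, ∀ᶠ n in (hyperfilter ℕ : Filter ℕ), x n = j := by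
  have h : ∀ᶠ n in (hyperfilter ℕ : Filter ℕ), (x n = 0 ∨ x n = 1) ∨ x n = 2 := by
    apply Eventually.of_forall
    intro n
    generalize x n = y
    revert y
    decide
  rw [Ultrafilter.eventually_or, Ultrafilter.eventually_or] at h
  rcases h with (h | h) | h
  · exact ⟨0, h⟩
  · exact ⟨1, h⟩
  · exact ⟨2, h⟩

/-- translation by a constant after the first `m` terms -/
def shift (m : ℕ) (c : ZMod 3) (x : Z) : Z := fun n => if n < m then x n else x n + c

theorem continuous_shift (m : ℕ) (c : ZMod 3) : Continuous (shift m c) := by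
  apply continuous_pi
  intro n
  unfold shift
  by_cases h : n < m
  · simp only [h, if_true]; exact continuous_apply n
  · simp only [h, if_false]
    exact (continuous_of_discreteTopology (f := fun y : ZMod 3 => y + c)).comp (continuous_apply n)

theorem shift_mem_cylinder {m : ℕ} {c : ZMod 3} {x y : Z} (h : x ∈ cylinder y m) :
    shift m c x ∈ cylinder y m := by
  rw [mem_cylinder_iff] at h ⊢
  intro i hi
  simp [shift, hi, h i hi]

theorem shift_shift (m : ℕ) (c : ZMod 3) (x : Z) : shift m c (shift m (-c) x) = x := by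
  funext n
  unfold shift
  split_ifs <;> simp

theorem shift_cylinder {m N : ℕ} {c : ZMod 3} {x y : Z} (h : x ∈ cylinder y N) :
    shift m c x ∈ cylinder (shift m c y) N := by
  rw [mem_cylinder_iff] at h ⊢
  intro i hi
  simp only [shift, h i hi]

/-- The Baire category argument. -/
theorem baire_step (k : ℕ) (x0 : Z) (m : ℕ) (γ : Z → ℕ) :
    ∃ N x1 m1, m ≤ m1 ∧ x1 ∈ cylinder x0 m ∧
      ∀ x ∈ cylinder x1 m1, ∀ M, ∃ t ∈ A k, t ∈ cylinder x M ∧ γ t ≤ N := by
  by_contra hcon
  push Not at hcon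
  -- the open sets
  let O : ℕ → Set Z := fun N => {x | ∃ M, ∀ t ∈ A k, t ∈ cylinder x M → N < γ t}
  have hO : ∀ N, IsOpen (O N) := by
    intro N
    rw [isOpen_iff_forall_mem_open]
    rintro x ⟨M, hM⟩
    refine ⟨cylinder x M, ?_, isOpen_cylinder _ x M, self_mem_cylinder x M⟩
    intro y hy
    refine ⟨M, fun t ht hty => hM t ht ?_⟩
    rw [mem_cylinder_iff] at hy hty ⊢
    intro i hi
    rw [hty i hi, hy i hi]
  have hOd : ∀ N, ∀ x1 ∈ cylinder x0 m, ∀ m1, ∃ x ∈ cylinder x1 m1, x ∈ O N := by
    intro N x1 hx1 m1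
    obtain ⟨x, hx, M, hM⟩ := hcon N x1 (max m m1) (le_max_left _ _) hx1
    refine ⟨x, ?_, M, hM⟩
    rw [mem_cylinder_iff] at hx ⊢
    intro i hi
    exact hx i (lt_of_lt_of_le hi (le_max_right _ _))
  let V : ℕ × ZMod 3 → Set Z := fun q => (shift m q.2 ⁻¹' O q.1) ∪ (cylinder x0 m)ᶜ
  have hcl : IsOpen ((cylinder x0 m)ᶜ : Set Z) := by
    rw [isOpen_compl_iff]
    have : (cylinder x0 m : Set Z) = ⋂ i ∈ Set.Iio m, {y : Z | y i = x0 i} := by
      ext y
      simp [mem_cylinder_iff]
    rw [this]
    apply isClosed_biInter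
    intro i _
    exact isClosed_eq (continuous_apply i) continuous_const
  have hV : ∀ q, IsOpen (V q) := fun q => ((hO q.1).preimage (continuous_shift m q.2)).union hcl
  have hVd : ∀ q, Dense (V q) := by
    rintro ⟨N, c⟩
    rw [(isTopologicalBasis_cylinders (fun _ => ZMod 3)).dense_iff]
    rintro s ⟨x, n, rfl⟩ _
    by_cases hx : (cylinder x n ∩ cylinder x0 m : Set Z).Nonempty
    · obtain ⟨y, hy, hy0⟩ := hx
      obtain ⟨w, hw, hwO⟩ := hOd N (shift m c y) (shift_mem_cylinder hy0) (max n m)
      refine ⟨shift m (-c) w, ?_, Or.inl ?_⟩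
      · have h1 := shift_cylinder (m := m) (c := -c) hw
        have h2 : shift m (-c) (shift m c y) = y := by
          have := shift_shift m (-c) y
          rwa [neg_neg] at this
        rw [h2, mem_cylinder_iff] at h1
        rw [mem_cylinder_iff] at hy ⊢
        intro i hi
        rw [h1 i (lt_of_lt_of_le hi (le_max_left _ _)), hy i hi]
      · show shift m c (shift m (-c) w) ∈ O N
        rw [shift_shift]; exact hwO
    · refine ⟨x, self_mem_cylinder x n, Or.inr fun h => hx ⟨x, self_mem_cylinder x n, h⟩⟩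
  have hdense := dense_iInter_of_isOpen hV hVd
  obtain ⟨x, hx, hxV⟩ := hdense.inter_open_nonempty _ (isOpen_cylinder _ x0 m)
    ⟨x0, self_mem_cylinder x0 m⟩
  rw [Set.mem_iInter] at hxV
  have hx' : ∀ N c, shift m c x ∈ O N := by
    intro N c
    rcases hxV (N, c) with h | h
    · exact h
    · exact absurd hx h
  obtain ⟨j, hj⟩ := exists_lim x
  -- translate to the class `k`
  have hA : shift m ((k : ZMod 3) - j) x ∈ A k := by
    show ∀ᶠ n in (hyperfilter ℕ : Filter ℕ), shift m ((k : ZMod 3) - j) x n = (k : ZMod 3)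
    have h1 : ∀ᶠ n in (hyperfilter ℕ : Filter ℕ), m ≤ n := by
      apply hyperfilter_le_cofinite
      rw [Nat.cofinite_eq_atTop]
      exact eventually_ge_atTop m
    filter_upwards [h1, hj] with n hn hn2
    unfold shift
    rw [if_neg (by omega), hn2]
    ring
  obtain ⟨M, hM⟩ := hx' (γ (shift m ((k : ZMod 3) - j) x)) ((k : ZMod 3) - j)
  exact lt_irrefl _ (hM _ hA (self_mem_cylinder _ _))

end Pool.Agent.H85.Rect
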