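import Pool.Agent.H85.Rect.State

set_option autoImplicit false

/-!
# Joint continuity of the dynamics
-/

namespace Pool.Agent.H85.Rect

open Geo

variable {S : Type} [Geo S]

/-- `ρ'` is close to `ρ`, which is supported in `F`. -/
structure PN (F : Set S) (M : ℕ) (g : S → ℕ) (ρ ρ' : Set (Sym2 S)) (f : S → S) : Prop where
  G1 : ∀ u, ∀ w ∈ F, sc u w < g u
  G2 : ∀ u ∈ F, ∀ w ∈ F, sep u w ≤ g u ∧ sep u w ≤ g w
  sup : ∀ a b, s(a, b) ∈ ρ → a ∈ F
  val : ∀ a b, s(a, b) ∈ ρ → N a b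
  val' : ∀ a b, s(a, b) ∈ ρ' → N a b
  hf : ∀ u, N u (f u) ∧ (g u : ℕ∞) ≤ D u (f u)
  rel : ∀ a b, lev a + lev b ≤ 2 * M →
    (s(a, b) ∈ ρ' ↔ (a ≠ b ∧ s(a, b) ∈ ρ) ∨ ∃ u, s(u, u) ∈ ρ ∧ s(u, f u) = s(a, b))

namespace PN

variable {F : Set S} {M : ℕ} {g : S → ℕ} {ρ ρ' : Set (Sym2 S)} {f : S → S}

theorem D_lt (P : PN F M g ρ ρ' f) {u w : S} (hw : w ∈ F) (hne : u ≠ w) : D u w < (g u : ℕ∞) := by
  rw [D_ne hne]
  exact_mod_cast P.G1 u w hw

theorem sup2 (P : PN F M g ρ ρ' f) {a b : S} (h : s(a, b) ∈ ρ) : b ∈ F :=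
  P.sup b a (by rwa [Sym2.eq_swap])

theorem view_in (P : PN F M g ρ ρ' f) {e : S} (hl : lev e + 1 ≤ M) (w : S)
    (he : e ∈ F) :
    s(e, w) ∈ ρ' ↔ (e ≠ w ∧ s(e, w) ∈ ρ) ∨ (s(e, e) ∈ ρ ∧ f e = w) := by
  by_cases hN : N e w
  · have hlev : lev e + lev w ≤ 2 * M := by have := N_lev hN; omega
    rw [P.rel e w hlev]
    constructor
    · rintro (h | ⟨u, h1, h2⟩)
      · exact Or.inl h
      · right
        rw [Sym2.eq_iff] at h2
        rcases h2 with ⟨rfl, h2⟩ | ⟨rfl, h2⟩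
        · exact ⟨h1, h2⟩
        · by_cases hue : u = e
          · subst hue; exact ⟨h1, h2⟩
          · exfalso
            have h3 := (P.hf u).2
            rw [h2] at h3
            exact absurd (P.D_lt he hue) (not_lt.2 h3)
    · rintro (h | ⟨h1, h2⟩)
      · exact Or.inl h
      · exact Or.inr ⟨e, h1, by rw [h2]⟩
  · constructor
    · intro h; exact absurd (P.val' _ _ h) hN
    · rintro (⟨_, h⟩ | ⟨_, h⟩)
      · exact absurd (P.val _ _ h) hN
      · exact absurd (h ▸ (P.hf e).1) hN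

theorem view_out (P : PN F M g ρ ρ' f) {e : S} (hl : lev e + 1 ≤ M) (w : S)
    (he : e ∉ F) : s(e, w) ∈ ρ' ↔ s(w, w) ∈ ρ ∧ f w = e := by
  constructor
  · intro h
    have hN := P.val' _ _ h
    have hlev : lev e + lev w ≤ 2 * M := by have := N_lev hN; omega
    rw [P.rel e w hlev] at h
    rcases h with ⟨_, h⟩ | ⟨u, h1, h2⟩
    · exact absurd (P.sup _ _ h) he
    · rw [Sym2.eq_iff] at h2
      rcases h2 with ⟨rfl, h2⟩ | ⟨rfl, h2⟩
      · exact absurd (P.sup _ _ h1) he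
      · exact ⟨h1, h2⟩
  · rintro ⟨h1, h2⟩
    have hN : N w e := h2 ▸ (P.hf w).1
    have hlev : lev e + lev w ≤ 2 * M := by have := N_lev hN; omega
    rw [P.rel e w hlev]
    exact Or.inr ⟨w, h1, by rw [h2, Sym2.eq_swap]⟩

theorem partner_unique (P : PN F M g ρ ρ' f) {u v w : S} (hu : u ∈ F) (hv : v ∈ F)
    (huw : adj u w) (hvw : adj v w) (h1 : (g u : ℕ∞) ≤ D u w) (h2 : (g v : ℕ∞) ≤ D v w) :
    u = v := by
  by_contra hne
  rw [D_ne (adj_ne huw)] at h1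
  rw [D_ne (adj_ne hvw)] at h2
  have h1' : g u ≤ sc u w := by exact_mod_cast h1
  have h2' : g v ≤ sc v w := by exact_mod_cast h2
  obtain ⟨h3, h4⟩ := P.G2 u hu v hv
  rcases sep_spec hne huw hvw with h | h <;> omega

theorem notMem_of_fine (P : PN F M g ρ ρ' f) {u v : S} (hne : u ≠ v)
    (h : (g u : ℕ∞) ≤ D u v) : v ∉ F := fun hv => absurd (P.D_lt hv hne) (not_lt.2 h)

theorem mem_coarse (P : PN F M g ρ ρ' f) {e w : S} (hl : lev e + 1 ≤ M) (he : e ∈ F) (hw : w ∈ F)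
    (hne : e ≠ w) : s(e, w) ∈ ρ' ↔ s(e, w) ∈ ρ := by
  rw [P.view_in hl w he]
  constructor
  · rintro (h | ⟨_, h⟩)
    · exact h.2
    · exact absurd hw (P.notMem_of_fine hne (h ▸ (P.hf e).2))
  · intro h; exact Or.inl ⟨hne, h⟩

theorem mem_noncoarse (P : PN F M g ρ ρ' f) {e w : S} (hl : lev e + 1 ≤ M) (he : e ∈ F)
    (hw : w = e ∨ w ∉ F) : s(e, w) ∈ ρ' ↔ s(e, e) ∈ ρ ∧ f e = w := by
  rw [P.view_in hl w he]
  constructor
  · rintro (⟨hne, h⟩ | h)
    · rcases hw with rfl | hw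
      · exact absurd rfl hne
      · exact absurd (P.sup2 h) hw
    · exact h
  · intro h; exact Or.inr h

theorem cl_iff (P : PN F M g ρ ρ' f) {e w : S} (hl : lev e + 1 ≤ M) (he : e ∈ F)
    (hD : D e w < (g e : ℕ∞)) :
    (∀ q, s(e, q) ∈ ρ' → q = w) ↔ (∀ q, s(e, q) ∈ ρ → q = w) := by
  constructor
  · intro h q hq
    by_cases hqe : e = q
    · subst hqe
      have h1 : f e = w := h _ ((P.view_in hl _ he).2 (Or.inr ⟨hq, rfl⟩))
      have h2 := (P.hf e).2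
      rw [h1] at h2
      exact absurd hD (not_lt.2 h2)
    · exact h q ((P.view_in hl _ he).2 (Or.inl ⟨hqe, hq⟩))
  · intro h q hq
    rcases (P.view_in hl _ he).1 hq with ⟨_, h1⟩ | ⟨h1, _⟩
    · exact h q h1
    · have := h e h1
      subst this
      rw [D_self] at hD
      exact absurd hD not_top_lt

/-- at a fine partner everything comes from its base site -/
theorem cl_out (P : PN F M g ρ ρ' f) {u v : S} (hl : lev v + 1 ≤ M) (hu : u ∈ F)
    (huv : adj u v) (hD : (g u : ℕ∞) ≤ D u v) (q : S) (hq : s(v, q) ∈ ρ') : q = u := by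
  have hv := P.notMem_of_fine (adj_ne huv) hD
  obtain ⟨h1, h2⟩ := (P.view_out hl q hv).1 hq
  have hqF := P.sup _ _ h1
  have hN := (P.hf q).1
  have hg := (P.hf q).2
  rw [h2] at hN hg
  have hne : v ≠ q := fun h => hv (h ▸ hqF)
  exact P.partner_unique hqF hu (N_adj hN hne) huv hg hD

end PN

/-- The full set-up for joint continuity. -/
structure Setup (F : Set S) (M : ℕ) (g : S → ℕ) (ρ ρ' τ τ' : Set (Sym2 S))
    (k k' : S → ℕ → ℕ → S) (f h : S → S) : Prop where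
  P : PN F M g ρ ρ' f
  Q : PN F M g τ τ' h
  kval : ∀ e, Valid e (k e)
  kval' : ∀ e, Valid e (k' e)
  kF : ∀ e j i, k e j i ≠ e → e ∈ F ∧ k e j i ∈ F
  kc : ∀ e, lev e ≤ M → Eqg (g e) (k e) (k' e)

open Classical in
/-- the image of a label -/
noncomputable def im (f : S → S) (e w : S) : S := if w = e then f e else w

omit [Geo S] in
theorem im_self (f : S → S) (e : S) : im f e e = f e := by simp [im]

omit [Geo S] in
theorem im_ne (f : S → S) {e w : S} (h : w ≠ e) : im f e w = w := by simp [im, h]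

namespace Setup

variable {F : Set S} {M : ℕ} {g : S → ℕ} {ρ ρ' τ τ' : Set (Sym2 S)}
  {k k' : S → ℕ → ℕ → S} {f h : S → S}

theorem clean_iff (H : Setup F M g ρ ρ' τ τ' k k' f h) {e w : S} (hl : lev e + 1 ≤ M)
    (he : e ∈ F) (hD : D e w < (g e : ℕ∞)) : Clean ρ' τ' k' e w ↔ Clean ρ τ k e w := by
  unfold Clean
  rw [H.P.cl_iff hl he hD, H.Q.cl_iff hl he hD, Emp_close (H.kc e (by omega)) hD]

theorem k_out (H : Setup F M g ρ ρ' τ τ' k k' f h) {e : S} (he : e ∉ F) : k e = emp e := by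
  funext j i
  by_contra hc
  exact he (H.kF e j i hc).1

theorem clean_out (H : Setup F M g ρ ρ' τ τ' k k' f h) {u v : S} (hl : lev v + 1 ≤ M)
    (hu : u ∈ F) (huv : adj u v) (hD : (g u : ℕ∞) ≤ D u v) : Clean ρ' τ' k' v u := by
  refine ⟨H.P.cl_out hl hu huv hD, H.Q.cl_out hl hu huv hD, ?_⟩
  have hv := H.P.notMem_of_fine (adj_ne huv) hD
  rw [← Emp_close (H.kc v (by omega)) (H.P.D_lt hu (adj_ne huv).symm), H.k_out hv]
  exact Emp_emp v u

theorem act_out (H : Setup F M g ρ ρ' τ τ' k k' f h) {e w : S} (hl : lev e + 1 ≤ M)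
    (he : e ∉ F) : ¬ Act ρ' τ' k' e w := by
  intro ha
  obtain ⟨h1, h2⟩ := (H.P.view_out hl w he).1 ha.1
  have hwF := H.P.sup _ _ h1
  have hne : w ≠ e := fun h => he (h ▸ hwF)
  have hN := (H.P.hf w).1
  have hg := (H.P.hf w).2
  rw [h2] at hN hg
  rcases ha.2.2 with h3 | ⟨_, h3⟩
  · exact hne h3
  · exact h3 (H.clean_out hl hwF (N_adj hN hne.symm) hg)

theorem act_coarse_iff (H : Setup F M g ρ ρ' τ τ' k k' f h) {e w : S} (hl : lev e + 1 ≤ M)
    (hl' : lev w + 1 ≤ M) (he : e ∈ F) (hw : w ∈ F) (hne : e ≠ w) :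
    Act ρ' τ' k' e w ↔ Act ρ τ k e w := by
  have hD : D e w < (g e : ℕ∞) := H.P.D_lt hw hne
  have hD' : D w e < (g w : ℕ∞) := H.P.D_lt he hne.symm
  unfold Act
  rw [H.clean_iff hl he hD, H.clean_iff hl' hw hD', H.P.mem_coarse hl he hw hne]
  have hfin : (∀ q, s(e, q) ∈ ρ' → q ≠ w → D e q < D e w) ↔
      (∀ q, s(e, q) ∈ ρ → q ≠ w → D e q < D e w) := by
    constructor
    · intro h1 q hq hqw
      by_cases hqe : e = q
      · subst hqe
        exfalso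
        have h2 := (H.P.hf e).2
        have h3 : f e ≠ w := by
          intro h4; rw [h4] at h2; exact absurd hD (not_lt.2 h2)
        have h5 := h1 (f e) ((H.P.view_in hl _ he).2 (Or.inr ⟨hq, rfl⟩)) h3
        exact absurd (lt_of_le_of_lt h2 h5) (not_lt.2 hD.le)
      · exact h1 q ((H.P.view_in hl _ he).2 (Or.inl ⟨hqe, hq⟩)) hqw
    · intro h1 q hq hqw
      rcases (H.P.view_in hl _ he).1 hq with ⟨_, h2⟩ | ⟨h2, _⟩
      · exact h1 q h2 hqw
      · have h3 := h1 e h2 hne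
        rw [D_self] at h3
        exact absurd h3 not_top_lt
  rw [hfin]

omit [Geo S] in
theorem _root_.Pool.Agent.H85.Rect.mem_swap {ρ : Set (Sym2 S)} {a b : S} (h : s(a, b) ∈ ρ) :
    s(b, a) ∈ ρ := by rwa [Sym2.eq_swap]

theorem act_site {ρ τ : Set (Sym2 S)} {k : S → ℕ → ℕ → S} {e : S} (h : s(e, e) ∈ ρ) :
    Act ρ τ k e e := by
  refine ⟨h, fun q _ hq => ?_, Or.inl rfl⟩
  rw [D_self]; exact D_lt_top hq.symm

theorem act_site' (H : Setup F M g ρ ρ' τ τ' k k' f h) {e : S} (hl : lev e + 2 ≤ M)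
    (he : s(e, e) ∈ ρ) : Act ρ' τ' k' e (f e) ∨ (f e ≠ e ∧ Clean ρ' τ' k' e (f e)) := by
  have heF := H.P.sup _ _ he
  have hmem : s(e, f e) ∈ ρ' := (H.P.view_in (by omega) _ heF).2 (Or.inr ⟨he, rfl⟩)
  by_cases hf : f e = e
  · left
    rw [hf] at hmem ⊢
    exact act_site hmem
  · by_cases hc : Clean ρ' τ' k' e (f e)
    · exact Or.inr ⟨hf, hc⟩
    · left
      have hN := (H.P.hf e).1
      have hg := (H.P.hf e).2
      have hlev := N_lev hN
      refine ⟨hmem, fun q hq hqw => ?_, Or.inr ⟨?_, hc⟩⟩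
      · rcases (H.P.view_in (by omega) _ heF).1 hq with ⟨h1, h2⟩ | ⟨_, h2⟩
        · exact lt_of_lt_of_le (H.P.D_lt (H.P.sup2 h2) h1) hg
        · exact absurd h2.symm hqw
      · exact H.clean_out (by omega) heF (N_adj hN hf) hg

theorem act_image (H : Setup F M g ρ ρ' τ τ' k k' f h) {e w : S} (hl : lev e + 2 ≤ M)
    (ha : Act ρ τ k e w) :
    Act ρ' τ' k' e (im f e w) ∨ (w = e ∧ f e ≠ e ∧ Clean ρ' τ' k' e (f e)) := by
  by_cases hw : w = e
  · subst hw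
    rw [im_self]
    rcases H.act_site' hl ha.1 with h1 | h1
    · exact Or.inl h1
    · exact Or.inr ⟨rfl, h1⟩
  · left
    rw [im_ne _ hw]
    have hlev := N_lev (H.P.val _ _ ha.1)
    exact (H.act_coarse_iff (by omega) (by omega) (H.P.sup _ _ ha.1) (H.P.sup2 ha.1)
      (Ne.symm hw)).2 ha

theorem act_preimage (H : Setup F M g ρ ρ' τ τ' k k' f h) {e w' : S} (hl : lev e + 2 ≤ M)
    (ha : Act ρ' τ' k' e w') : ∃ w, Act ρ τ k e w ∧ w' = im f e w := by
  have heF : e ∈ F := by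
    by_contra hc
    exact H.act_out (by omega) hc ha
  rcases (H.P.view_in (by omega) _ heF).1 ha.1 with ⟨h1, h2⟩ | ⟨h1, h2⟩
  · refine ⟨w', ?_, by rw [im_ne _ (Ne.symm h1)]⟩
    have hlev := N_lev (H.P.val _ _ h2)
    exact (H.act_coarse_iff (by omega) (by omega) heF (H.P.sup2 h2) h1).1 ha
  · exact ⟨e, act_site h1, by rw [im_self, h2]⟩

theorem Cl_im (H : Setup F M g ρ ρ' τ τ' k k' f h) (e w : S) : Cl (g e) e w (im f e w) := by
  by_cases hw : w = e
  · subst hw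
    rw [im_self]
    exact Cl_self (H.P.hf w).2
  · rw [im_ne _ hw]; exact Cl_refl _ _ _

theorem tn_iff (H : Setup F M g ρ ρ' τ τ' k k' f h) {e w : S} (hl : lev e + 2 ≤ M)
    (ha : Act ρ τ k e w) (q : S) :
    Tn ρ' τ' e (im f e w) q ↔ (q ≠ e ∧ Tn ρ τ e w q) ∨ (s(e, e) ∈ τ ∧ h e = q) := by
  have heF := H.P.sup _ _ ha.1
  have hl1 : lev e + 1 ≤ M := by omega
  have hee : s(e, e) ∈ ρ → e = w := fun h1 => Act_unique (act_site h1) ha
  unfold Tn
  constructor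
  · rintro ⟨h1, h2⟩
    rcases (H.Q.view_in hl1 _ heF).1 h1 with ⟨h3, h4⟩ | h3
    · left
      refine ⟨Ne.symm h3, h4, fun h5 => ?_⟩
      have h6 := h2 ((H.P.mem_coarse hl1 heF (H.Q.sup2 h4) h3).2 h5)
      by_cases hw : w = e
      · subst hw
        rw [im_self] at h6
        have h7 := (H.P.hf w).2
        rw [← h6] at h7
        exact absurd (H.P.D_lt (H.Q.sup2 h4) h3) (not_lt.2 h7)
      · rw [im_ne _ hw] at h6; exact h6
    · exact Or.inr h3
  · rintro (⟨h1, h2, h3⟩ | ⟨h1, h2⟩)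
    · refine ⟨(H.Q.mem_coarse hl1 heF (H.Q.sup2 h2) (Ne.symm h1)).2 h2, fun h4 => ?_⟩
      have h5 := h3 ((H.P.mem_coarse hl1 heF (H.Q.sup2 h2) (Ne.symm h1)).1 h4)
      subst h5
      rw [im_ne _ h1]
    · refine ⟨(H.Q.view_in hl1 _ heF).2 (Or.inr ⟨h1, h2⟩), fun h4 => ?_⟩
      have hg := (H.Q.hf e).2
      rw [h2] at hg
      rcases (H.P.view_in hl1 _ heF).1 h4 with ⟨h5, h6⟩ | ⟨h5, h6⟩
      · exact absurd (H.P.D_lt (H.P.sup2 h6) h5) (not_lt.2 hg)
      · rw [← hee h5, im_self, h6]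

theorem tn_self (H : Setup F M g ρ ρ' τ τ' k k' f h) {e w : S}
    (ha : Act ρ τ k e w) : Tn ρ τ e w e ↔ s(e, e) ∈ τ :=
  ⟨fun h1 => h1.1, fun h1 => ⟨h1, fun h2 => Act_unique (act_site h2) ha⟩⟩

theorem t_mem (H : Setup F M g ρ ρ' τ τ' k k' f h) {e w t : S} (ha : s(e, w) ∈ ρ)
    (hc : Cand ρ τ k e w t) : t ∈ F := by
  classical
  have heF := H.P.sup _ _ ha
  have hwF := H.P.sup2 ha
  rcases hc.2 with ⟨_, h1⟩ | ⟨h1, _⟩
  · by_cases hte : e = t
    · subst hte; exact heF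
    · have h2 := h1 (sc e t) (by rw [D_ne hte])
      rw [hd_eq (by rw [D_ne hte])] at h2
      have hk : k e (sc e t) 0 = e ∨ k e (sc e t) 0 ∈ F := by
        by_cases h3 : k e (sc e t) 0 = e
        · exact Or.inl h3
        · exact Or.inr (H.kF _ _ _ h3).2
      unfold tw at h2
      by_cases h3 : ((sc e t : ℕ) : ℕ∞) = D e w
      · rw [if_pos h3, cons_zero] at h2
        by_cases h4 : k e (sc e t) 0 = e
        · rw [h4, Equiv.swap_apply_left] at h2
          rw [← h2]; exact hwF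
        · by_cases h5 : k e (sc e t) 0 = w
          · rw [h5, Equiv.swap_apply_right] at h2
            rw [← h2]; exact heF
          · rw [Equiv.swap_apply_of_ne_of_ne h4 h5] at h2
            rw [← h2]; exact hk.resolve_left h4
      · rw [if_neg h3] at h2
        rw [← h2]
        rcases hk with h4 | h4
        · rw [h4]; exact heF
        · exact h4
  · exact H.Q.sup2 h1.1

theorem cand_fwd (H : Setup F M g ρ ρ' τ τ' k k' f h) {e w t : S} (hl : lev e + 2 ≤ M)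
    (ha : Act ρ τ k e w) (ha' : Act ρ' τ' k' e (im f e w)) (hc : Cand ρ τ k e w t) :
    ∃ t', Cand ρ' τ' k' e (im f e w) t' ∧ Cl (g e) e t t' ∧
      Eqg (g e) (newk ρ τ e w t (k e)) (newk ρ' τ' e (im f e w) t' (k' e)) := by
  have hCl := H.Cl_im e w
  have hk := H.kc e (by omega)
  rcases hc.2 with ⟨h1, h2⟩ | ⟨h1, h2⟩
  · have h1' : ∀ q, ¬ Tn ρ' τ' e (im f e w) q := by
      intro q hq
      rcases (H.tn_iff hl ha q).1 hq with ⟨_, h3⟩ | ⟨h3, _⟩
      · exact h1 q h3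
      · exact h1 e ((H.tn_self ha).2 h3)
    obtain ⟨t', h3, h4⟩ := exists_isTop (valid_tw (H.P.val' _ _ ha'.1) (H.kval' e))
    have h5 := tw_close hCl hk
    have h6 := top_close h5 h2 h4
    refine ⟨t', ⟨h3, Or.inl ⟨h1', h4⟩⟩, h6, ?_⟩
    rw [newk_neg (h1 t), newk_neg (h1' t')]
    exact rest_close h6 h5
  · by_cases hte : t = e
    · subst hte
      have h3 : Tn ρ' τ' t (im f t w) (h t) := (H.tn_iff hl ha _).2 (Or.inr ⟨h1.1, rfl⟩)
      have h4 : Cl (g t) t t (h t) := Cl_self (H.Q.hf t).2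
      refine ⟨h t, ⟨(H.Q.hf t).1, Or.inr ⟨h3, fun q hq => ?_⟩⟩, h4, ?_⟩
      · rcases (H.tn_iff hl ha q).1 hq with ⟨h5, h6⟩ | ⟨_, h5⟩
        · exact absurd (h2 q h6) h5
        · exact h5.symm
      · rw [newk_pos h1, newk_pos h3]
        exact tw_close hCl (push_close h4 hk)
    · have h3 : Tn ρ' τ' e (im f e w) t := (H.tn_iff hl ha _).2 (Or.inl ⟨hte, h1⟩)
      refine ⟨t, ⟨hc.1, Or.inr ⟨h3, fun q hq => ?_⟩⟩, Cl_refl _ _ _, ?_⟩
      · rcases (H.tn_iff hl ha q).1 hq with ⟨h5, h6⟩ | ⟨h5, _⟩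
        · exact h2 q h6
        · exact absurd (h2 e ((H.tn_self ha).2 h5)).symm hte
      · rw [newk_pos h1, newk_pos h3]
        exact tw_close hCl (push_close (Cl_refl _ _ _) hk)

theorem cand_bwd (H : Setup F M g ρ ρ' τ τ' k k' f h) {e w t' : S} (hl : lev e + 2 ≤ M)
    (ha : Act ρ τ k e w) (hc : Cand ρ' τ' k' e (im f e w) t') :
    ∃ t, Cand ρ τ k e w t := by
  rcases hc.2 with ⟨h1, h2⟩ | ⟨h1, h2⟩
  · obtain ⟨t, h3, h4⟩ := exists_isTop (valid_tw (H.P.val _ _ ha.1) (H.kval e))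
    refine ⟨t, h3, Or.inl ⟨fun q hq => ?_, h4⟩⟩
    by_cases hqe : q = e
    · subst hqe
      exact h1 (h q) ((H.tn_iff hl ha _).2 (Or.inr ⟨hq.1, rfl⟩))
    · exact h1 q ((H.tn_iff hl ha _).2 (Or.inl ⟨hqe, hq⟩))
  · have heF := H.P.sup _ _ ha.1
    rcases (H.tn_iff hl ha _).1 h1 with ⟨h3, h4⟩ | ⟨h3, h4⟩
    · refine ⟨t', hc.1, Or.inr ⟨h4, fun q hq => ?_⟩⟩
      by_cases hqe : q = e
      · subst hqe
        have h5 : h q = t' := h2 _ ((H.tn_iff hl ha _).2 (Or.inr ⟨hq.1, rfl⟩))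
        have h6 := (H.Q.hf q).2
        rw [h5] at h6
        exact absurd (H.P.D_lt (H.Q.sup2 h4.1) (Ne.symm h3)) (not_lt.2 h6)
      · exact h2 q ((H.tn_iff hl ha _).2 (Or.inl ⟨hqe, hq⟩))
    · refine ⟨e, N_self e, Or.inr ⟨(H.tn_self ha).2 h3, fun q hq => ?_⟩⟩
      by_contra hqe
      have h5 : q = t' := h2 q ((H.tn_iff hl ha _).2 (Or.inl ⟨hqe, hq⟩))
      have h6 := (H.Q.hf e).2
      rw [h4, ← h5] at h6
      exact absurd (H.P.D_lt (H.Q.sup2 hq.1) (Ne.symm hqe)) (not_lt.2 h6)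

theorem eq_of_Cl (H : Setup F M g ρ ρ' τ τ' k k' f h) {e t t' : S} (ht : t ∈ F) (hne : t ≠ e)
    (hCl : Cl (g e) e t t') : t' = t := by
  rcases hCl with h1 | ⟨h1, _⟩
  · exact h1.symm
  · exact absurd (H.P.D_lt ht (Ne.symm hne)) (not_lt.2 h1)

theorem test_iff (H : Setup F M g ρ ρ' τ τ' k k' f h) {e w t t' : S} (hl : lev e + 2 ≤ M)
    (ha : Act ρ τ k e w) (hc : Cand ρ τ k e w t)
    (hc' : Cand ρ' τ' k' e (im f e w) t') (hCl : Cl (g e) e t t') :
    Test ρ e w t ↔ Test ρ' e (im f e w) t' := by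
  have heF := H.P.sup _ _ ha.1
  have htF := H.t_mem ha.1 hc
  have hlev := N_lev hc.1
  by_cases hte : t = e
  · subst hte
    constructor
    · intro _ hne q hq
      have hg : (g t : ℕ∞) ≤ D t t' := by
        rcases hCl with h1 | ⟨_, h1⟩
        · exact absurd h1.symm hne
        · exact h1
      have hadj := N_adj hc'.1 hne
      have hlev' := N_lev hc'.1
      have h1 := H.P.cl_out (by omega) htF hadj hg q hq
      subst h1
      -- `q` is the base site; so `q ∈ ρ` and `f q = t'`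
      have hv := H.P.notMem_of_fine (adj_ne hadj) hg
      obtain ⟨h2, h3⟩ := (H.P.view_out (by omega) q hv).1 hq
      have h4 : q = w := Act_unique (act_site h2) ha
      subst h4
      rw [im_self, h3, Sym2.eq_swap]
    · intro _ hne
      exact absurd rfl hne
  · have ht' : t' = t := H.eq_of_Cl htF hte hCl
    subst ht'
    constructor
    · intro h1 hne q hq
      rcases (H.P.view_in (by omega) _ htF).1 hq with ⟨h2, h3⟩ | ⟨h2, h3⟩
      · have h4 := h1 hne q h3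
        have hw : w ≠ e := by
          rintro rfl
          rw [Sym2.eq_iff] at h4
          rcases h4 with ⟨h5, _⟩ | ⟨h5, _⟩ <;> exact hte h5
        rw [im_ne _ hw]; exact h4
      · have h4 := h1 hne t' h2
        rw [Sym2.eq_iff] at h4
        exfalso
        rcases h4 with ⟨h5, _⟩ | ⟨_, h5⟩ <;> exact hte h5
    · intro h1 hne q hq
      by_cases hqt : t' = q
      · subst hqt
        exfalso
        have h2 := h1 hne (f t') ((H.P.view_in (by omega) _ htF).2 (Or.inr ⟨hq, rfl⟩))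
        rw [Sym2.eq_iff] at h2
        rcases h2 with ⟨h3, _⟩ | ⟨_, h3⟩
        · exact hte h3
        · have h4 := (H.P.hf t').2
          rw [h3] at h4
          exact absurd (H.P.D_lt heF hte) (not_lt.2 h4)
      · have h2 := h1 hne q ((H.P.view_in (by omega) _ htF).2 (Or.inl ⟨hqt, hq⟩))
        by_cases hw : w = e
        · subst hw
          exfalso
          rw [im_self, Sym2.eq_iff] at h2
          rcases h2 with ⟨h3, _⟩ | ⟨h3, _⟩
          · exact hte h3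
          · have h4 := (H.P.hf w).2
            rw [← h3] at h4
            exact absurd (H.P.D_lt htF (Ne.symm hte)) (not_lt.2 h4)
        · rw [im_ne _ hw] at h2; exact h2

theorem touch_fwd (H : Setup F M g ρ ρ' τ τ' k k' f h) {e w t : S} (hl : lev e + 2 ≤ M)
    (ht : Touch ρ τ k e w t) (ha' : Act ρ' τ' k' e (im f e w)) :
    ∃ t', Touch ρ' τ' k' e (im f e w) t' ∧ Cl (g e) e t t' ∧
      Eqg (g e) (newk ρ τ e w t (k e)) (newk ρ' τ' e (im f e w) t' (k' e)) := by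
  obtain ⟨t', h1, h2, h3⟩ := H.cand_fwd hl ht.1 ha' ht.2.1
  exact ⟨t', ⟨ha', h1, (H.test_iff hl ht.1 ht.2.1 h1 h2).1 ht.2.2⟩, h2, h3⟩

theorem touch_bwd (H : Setup F M g ρ ρ' τ τ' k k' f h) {e w' t' : S} (hl : lev e + 2 ≤ M)
    (ht : Touch ρ' τ' k' e w' t') :
    ∃ w t, Touch ρ τ k e w t ∧ w' = im f e w ∧ Cl (g e) e t t' := by
  obtain ⟨w, ha, rfl⟩ := H.act_preimage hl ht.1
  obtain ⟨t, hc⟩ := H.cand_bwd hl ha ht.2.1
  obtain ⟨t'', h1, h2, h3⟩ := H.cand_fwd hl ha ht.1 hc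
  have := Cand_unique h1 ht.2.1
  subst this
  exact ⟨w, t, ⟨ha, hc, (H.test_iff hl ha hc h1 h2).2 ht.2.2⟩, rfl, h2⟩

/-- consequences of a fine particle being alone at its base site -/
theorem clean_fine (H : Setup F M g ρ ρ' τ τ' k k' f h) {a v : S} (hl : lev a + 1 ≤ M)
    (haF : a ∈ F) (hne : v ≠ a) (hg : (g a : ℕ∞) ≤ D a v) (hc : Clean ρ' τ' k' a v) :
    (∀ q, s(a, q) ∈ τ → q = a) ∧ (s(a, a) ∈ τ → h a = v) ∧ k a = emp a := by
  have hv := H.P.notMem_of_fine hne.symm hg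
  refine ⟨fun q hq => ?_, fun h1 => ?_, ?_⟩
  · by_contra hqa
    have h1 := hc.2.1 q ((H.Q.view_in hl _ haF).2 (Or.inl ⟨Ne.symm hqa, hq⟩))
    exact hv (h1 ▸ H.Q.sup2 hq)
  · exact hc.2.1 _ ((H.Q.view_in hl _ haF).2 (Or.inr ⟨h1, rfl⟩))
  · funext j i
    by_contra h1
    have h1' : k a j i ≠ a := h1
    have h2 := (H.kF a j i h1').2
    rcases H.kval a j i with h3 | ⟨h3, h4⟩
    · exact h1' h3
    · have h5 : (j : ℕ∞) < (g a : ℕ∞) := by
        rw [← h4]; exact H.P.D_lt h2 (Ne.symm h1')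
      have h6 : j < g a := by exact_mod_cast h5
      have h7 := H.kc a (by omega) j h6
      have h8 := hc.2.2 j (h5.le.trans hg) i
      rw [← h7] at h8
      exact h1' h8

theorem touch_aaa (H : Setup F M g ρ ρ' τ τ' k k' f h) {a : S}
    (ha : s(a, a) ∈ ρ) (h1 : ∀ q, s(a, q) ∈ τ → q = a) (h2 : k a = emp a) :
    Touch ρ τ k a a a := by
  refine ⟨act_site ha, ⟨N_self a, ?_⟩, fun hne => absurd rfl hne⟩
  by_cases h3 : s(a, a) ∈ τ
  · exact Or.inr ⟨⟨h3, fun _ => rfl⟩, fun q hq => h1 q hq.1⟩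
  · left
    refine ⟨fun q hq => ?_, ?_⟩
    · have := h1 q hq.1
      subst this
      exact h3 hq.1
    · rw [tw_self, h2]; exact isTop_emp a

end Setup

end Pool.Agent.H85.Rect
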