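import Pool.Agent.H85.Rect.Cont

set_option autoImplicit false

/-!
# Joint continuity of the dynamics: conclusion
-/

namespace Pool.Agent.H85.Rect

open Geo

variable {S : Type} [Geo S]

namespace Setup

variable {F : Set S} {M : ℕ} {g : S → ℕ} {ρ ρ' τ τ' : Set (Sym2 S)}
  {k k' : S → ℕ → ℕ → S} {f h : S → S}

theorem k1_close (H : Setup F M g ρ ρ' τ τ' k k' f h) {e : S} (hl : lev e + 2 ≤ M) :
    Eqg (g e) (k1 ρ τ k e) (k1 ρ' τ' k' e) := by
  by_cases hT : ∃ w t, Touch ρ τ k e w t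
  · obtain ⟨w, t, hT⟩ := hT
    rcases H.act_image hl hT.1 with ha' | ⟨rfl, hne, hc⟩
    · obtain ⟨t', h1, _, h2⟩ := H.touch_fwd hl hT ha'
      rw [k1_touch hT, k1_touch h1]
      exact h2
    · have haF := H.P.sup _ _ hT.1.1
      obtain ⟨h1, h2, h3⟩ := H.clean_fine (by omega) haF hne (H.P.hf w).2 hc
      have h4 := H.touch_aaa hT.1.1 h1 h3
      have h5 : k1 ρ τ k w = k w := by
        rw [k1_touch h4, h3]
        by_cases h6 : Tn ρ τ w w w
        · rw [newk_pos h6, tw_self, push_self_emp]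
        · rw [newk_neg h6, tw_self]
          funext j
          unfold rest
          split_ifs <;> rfl
      have h6 : k1 ρ' τ' k' w = k' w := by
        apply k1_no
        intro w' t' h'
        have h7 := hc.1 w' h'.1.1
        subst h7
        rcases h'.1.2.2 with h8 | ⟨_, h8⟩
        · exact hne h8
        · exact h8 hc
      rw [h5, h6]
      exact H.kc w (by omega)
  · push Not at hT
    have hT' : ∀ w' t', ¬ Touch ρ' τ' k' e w' t' := by
      intro w' t' h'
      obtain ⟨w, t, h1, _⟩ := H.touch_bwd hl h'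
      exact hT _ _ h1
    rw [k1_no hT, k1_no hT']
    exact H.kc e (by omega)

/-- touched coarse labels agree -/
theorem touch_coarse (H : Setup F M g ρ ρ' τ τ' k k' f h) {a b : S} (hl : lev a + 2 ≤ M)
    (hb : b ∈ F) (hne : a ≠ b) :
    (∃ w, Touch ρ' τ' k' a w b) ↔ ∃ w, Touch ρ τ k a w b := by
  constructor
  · rintro ⟨w', h1⟩
    obtain ⟨w, t, h2, _, h3⟩ := H.touch_bwd hl h1
    have h4 : t = b := H.eq_of_Cl hb (Ne.symm hne) h3.symm
    subst h4
    exact ⟨w, h2⟩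
  · rintro ⟨w, h1⟩
    rcases H.act_image hl h1.1 with ha' | ⟨rfl, hne', hc⟩
    · obtain ⟨t', h2, h3, _⟩ := H.touch_fwd hl h1 ha'
      have h4 : t' = b := H.eq_of_Cl hb (Ne.symm hne) h3
      subst h4
      exact ⟨_, h2⟩
    · exfalso
      have haF := H.P.sup _ _ h1.1.1
      obtain ⟨h2, _, h3⟩ := H.clean_fine (by omega) haF hne' (H.P.hf w).2 hc
      have h4 := H.touch_aaa h1.1.1 h2 h3
      exact hne (Touch_unique h4 h1).2

theorem tau1_coarse (H : Setup F M g ρ ρ' τ τ' k k' f h) {a b : S} (hl : lev a + 2 ≤ M)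
    (hl' : lev b + 2 ≤ M) (ha : a ∈ F) (hb : b ∈ F) (hne : a ≠ b) :
    s(a, b) ∈ tau1 ρ' τ' k' ↔ s(a, b) ∈ tau1 ρ τ k := by
  have hD : Dl ρ' τ' k' a b ↔ Dl ρ τ k a b := by
    unfold Dl
    rw [H.touch_coarse hl hb hne, H.touch_coarse hl' ha hne.symm,
      H.P.mem_coarse (by omega) ha hb hne, H.act_coarse_iff (by omega) (by omega) ha hb hne,
      H.act_coarse_iff (by omega) (by omega) hb ha hne.symm]
  rw [mem_tau1, mem_tau1, hD, H.Q.mem_coarse (by omega) ha hb hne]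

theorem mem_F_of_tau1 (H : Setup F M g ρ ρ' τ τ' k k' f h) {a b : S}
    (hab : s(a, b) ∈ tau1 ρ τ k) : a ∈ F := by
  rw [mem_tau1] at hab
  rcases hab with ⟨h1, _⟩ | ⟨h1, _⟩
  · exact H.Q.sup _ _ h1
  · rcases h1 with ⟨w, h1⟩ | ⟨w, h1⟩ | ⟨_, h1, _⟩
    · exact H.P.sup _ _ h1.1.1
    · exact H.t_mem h1.1.1 h1.2.1
    · exact H.P.sup _ _ h1

theorem Dl_noncoarse (H : Setup F M g ρ ρ' τ τ' k k' f h) {a b : S} (hl : lev a + 2 ≤ M)
    (hb : b = a ∨ b ∉ F) :
    Dl ρ' τ' k' a b ↔ (∃ w, Touch ρ' τ' k' a w b) ∨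
      (a ≠ b ∧ s(a, b) ∈ ρ' ∧ ¬ Act ρ' τ' k' a b) := by
  constructor
  · rintro (h1 | ⟨w, h1⟩ | ⟨h1, h2, h3, _⟩)
    · exact Or.inl h1
    · rcases hb with rfl | hb
      · exact Or.inl ⟨w, h1⟩
      · exfalso
        have hlev := N_lev h1.2.1.1
        exact H.act_out (by omega) hb h1.1
    · exact Or.inr ⟨h1, h2, h3⟩
  · rintro (h1 | ⟨h1, h2, h3⟩)
    · exact Or.inl h1
    · refine Or.inr (Or.inr ⟨h1, h2, h3, ?_⟩)
      rcases hb with rfl | hb
      · exact absurd rfl h1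
      · have hlev := N_lev (H.P.val' _ _ h2)
        exact H.act_out (by omega) hb

/-- the fine particles near a site after the action -/
theorem tau1_noncoarse (H : Setup F M g ρ ρ' τ τ' k k' f h) {a : S} (hl : lev a + 2 ≤ M)
    (ha : a ∈ F) :
    ∃ v, N a v ∧ (g a : ℕ∞) ≤ D a v ∧ ∀ b, (b = a ∨ b ∉ F) →
      (s(a, b) ∈ tau1 ρ' τ' k' ↔ s(a, a) ∈ tau1 ρ τ k ∧ v = b) := by
  have hl1 : lev a + 1 ≤ M := by omega
  have hDaa : Dl ρ τ k a a ↔ ∃ w, Touch ρ τ k a w a := by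
    unfold Dl
    constructor
    · rintro (h1 | h1 | ⟨h1, _⟩)
      · exact h1
      · exact h1
      · exact absurd rfl h1
    · intro h1; exact Or.inl h1
  by_cases hT : ∃ w, Touch ρ τ k a w a
  · have hself : s(a, a) ∈ tau1 ρ τ k ↔ s(a, a) ∉ τ := by
      rw [mem_tau1, hDaa]
      constructor
      · rintro (⟨_, h1⟩ | ⟨_, h1⟩)
        · exact absurd hT h1
        · exact h1
      · intro h1; exact Or.inr ⟨hT, h1⟩
    obtain ⟨w, hT⟩ := hT
    rcases H.act_image hl hT.1 with ha' | ⟨rfl, hne, hc⟩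
    · obtain ⟨t', ht', hCl, _⟩ := H.touch_fwd hl hT ha'
      have hg : (g a : ℕ∞) ≤ D a t' := by
        rcases hCl with h1 | ⟨_, h1⟩
        · rw [← h1, D_self]; exact le_top
        · exact h1
      have hD : ∀ b, (b = a ∨ b ∉ F) → (Dl ρ' τ' k' a b ↔ t' = b) := by
        intro b hb
        rw [H.Dl_noncoarse hl hb]
        constructor
        · rintro (⟨w'', h1⟩ | ⟨h1, h2, h3⟩)
          · exact (Touch_unique ht' h1).2
          · exfalso
            obtain ⟨h4, h5⟩ := (H.P.mem_noncoarse hl1 ha hb).1 h2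
            rcases H.act_site' hl h4 with h6 | ⟨h6, h7⟩
            · rw [h5] at h6; exact h3 h6
            · have h8 := h7.1 _ ha'.1
              rw [h8] at ha'
              rcases ha'.2.2 with h9 | ⟨_, h9⟩
              · exact h6 h9
              · exact h9 h7
        · rintro rfl
          exact Or.inl ⟨_, ht'⟩
      by_cases hτ : s(a, a) ∈ τ
      · have h1 : Tn ρ' τ' a (im f a w) (h a) := (H.tn_iff hl hT.1 _).2 (Or.inr ⟨hτ, rfl⟩)
        have h2 : h a = t' := by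
          rcases ht'.2.1.2 with ⟨h3, _⟩ | ⟨_, h3⟩
          · exact absurd h1 (h3 _)
          · exact h3 _ h1
        refine ⟨a, N_self a, by rw [D_self]; exact le_top, fun b hb => ?_⟩
        rw [mem_tau1, hD b hb, H.Q.mem_noncoarse hl1 ha hb, hself, h2]
        constructor
        · rintro (⟨⟨_, h3⟩, h4⟩ | ⟨h3, h4⟩)
          · exact absurd h3 h4
          · exact absurd ⟨hτ, h3⟩ h4
        · rintro ⟨h3, _⟩
          exact absurd hτ h3
      · refine ⟨t', ht'.2.1.1, hg, fun b hb => ?_⟩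
        rw [mem_tau1, hD b hb, H.Q.mem_noncoarse hl1 ha hb, hself]
        constructor
        · rintro (⟨⟨h3, _⟩, h4⟩ | ⟨h3, h4⟩)
          · exact absurd h3 hτ
          · exact ⟨hτ, h3⟩
        · rintro ⟨_, h3⟩
          exact Or.inr ⟨h3, fun h4 => hτ h4.1⟩
    · have hg := (H.P.hf w).2
      obtain ⟨h1, h2, h3⟩ := H.clean_fine hl1 ha hne hg hc
      have hnt : ∀ w' b, ¬ Touch ρ' τ' k' w w' b := by
        intro w' b h'
        have h7 := hc.1 w' h'.1.1
        subst h7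
        rcases h'.1.2.2 with h8 | ⟨_, h8⟩
        · exact hne h8
        · exact h8 hc
      have hD : ∀ b, (b = w ∨ b ∉ F) → (Dl ρ' τ' k' w b ↔ f w = b) := by
        intro b hb
        rw [H.Dl_noncoarse hl hb]
        constructor
        · rintro (⟨w'', h1⟩ | ⟨h4, h5, h6⟩)
          · exact absurd h1 (hnt _ _)
          · exact ((H.P.mem_noncoarse hl1 ha hb).1 h5).2
        · rintro rfl
          right
          refine ⟨hne.symm, (H.P.mem_noncoarse hl1 ha hb).2 ⟨hT.1.1, rfl⟩, fun h4 => ?_⟩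
          rcases h4.2.2 with h5 | ⟨_, h5⟩
          · exact hne h5
          · exact h5 hc
      by_cases hτ : s(w, w) ∈ τ
      · refine ⟨w, N_self w, by rw [D_self]; exact le_top, fun b hb => ?_⟩
        rw [mem_tau1, hD b hb, H.Q.mem_noncoarse hl1 ha hb, hself, h2 hτ]
        constructor
        · rintro (⟨⟨_, h3⟩, h4⟩ | ⟨h3, h4⟩)
          · exact absurd h3 h4
          · exact absurd ⟨hτ, h3⟩ h4
        · rintro ⟨h3, _⟩
          exact absurd hτ h3
      · refine ⟨f w, (H.P.hf w).1, hg, fun b hb => ?_⟩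
        rw [mem_tau1, hD b hb, H.Q.mem_noncoarse hl1 ha hb, hself]
        constructor
        · rintro (⟨⟨h3, _⟩, h4⟩ | ⟨h3, h4⟩)
          · exact absurd h3 hτ
          · exact ⟨hτ, h3⟩
        · rintro ⟨_, h3⟩
          exact Or.inr ⟨h3, fun h4 => hτ h4.1⟩
  · have hself : s(a, a) ∈ tau1 ρ τ k ↔ s(a, a) ∈ τ := by
      rw [mem_tau1, hDaa]
      constructor
      · rintro (⟨h1, _⟩ | ⟨h1, _⟩)
        · exact h1
        · exact absurd h1 hT
      · intro h1; exact Or.inl ⟨h1, hT⟩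
    refine ⟨h a, (H.Q.hf a).1, (H.Q.hf a).2, fun b hb => ?_⟩
    have hnD : ¬ Dl ρ' τ' k' a b := by
      rw [H.Dl_noncoarse hl hb]
      rintro (⟨w', h1⟩ | ⟨h1, h2, h3⟩)
      · obtain ⟨w, t, h4, _, h5⟩ := H.touch_bwd hl h1
        by_cases hta : t = a
        · subst hta; exact hT ⟨w, h4⟩
        · have h6 : b = t := H.eq_of_Cl (H.t_mem h4.1.1 h4.2.1) hta h5
          subst h6
          rcases hb with hb | hb
          · exact hta hb
          · exact hb (H.t_mem h4.1.1 h4.2.1)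
      · obtain ⟨h4, h5⟩ := (H.P.mem_noncoarse hl1 ha hb).1 h2
        rcases H.act_site' hl h4 with h6 | ⟨h6, h7⟩
        · rw [h5] at h6; exact h3 h6
        · obtain ⟨h8, _, h9⟩ := H.clean_fine hl1 ha h6 (H.P.hf a).2 h7
          exact hT ⟨a, H.touch_aaa h4 h8 h9⟩
    rw [mem_tau1, H.Q.mem_noncoarse hl1 ha hb, hself]
    constructor
    · rintro (⟨h1, _⟩ | ⟨h1, _⟩)
      · exact h1
      · exact absurd h1 hnD
    · intro h1; exact Or.inl ⟨h1, hnD⟩

theorem tau1_local (H : Setup F M g ρ ρ' τ τ' k k' f h) (a : S) :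
    ∃ v, (N a v ∧ (g a : ℕ∞) ≤ D a v) ∧ (a ∈ F → lev a + 3 ≤ M → ∀ b, N a b →
      (s(a, b) ∈ tau1 ρ' τ' k' ↔
        (a ≠ b ∧ s(a, b) ∈ tau1 ρ τ k) ∨ (s(a, a) ∈ tau1 ρ τ k ∧ v = b))) := by
  by_cases hc : a ∈ F ∧ lev a + 3 ≤ M
  · obtain ⟨ha, hl⟩ := hc
    obtain ⟨v, h1, h2, h3⟩ := H.tau1_noncoarse (by omega) ha
    refine ⟨v, ⟨h1, h2⟩, fun _ _ b hN => ?_⟩
    by_cases hb : b = a ∨ b ∉ F
    · rw [h3 b hb]
      constructor
      · intro h4; exact Or.inr h4
      · rintro (⟨h4, h5⟩ | h4)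
        · exfalso
          rcases hb with hb | hb
          · exact h4 hb.symm
          · exact hb (H.mem_F_of_tau1 (mem_swap h5))
        · exact h4
    · push Not at hb
      have hlev := N_lev hN
      rw [H.tau1_coarse (by omega) (by omega) ha hb.2 (Ne.symm hb.1)]
      constructor
      · intro h4; exact Or.inl ⟨Ne.symm hb.1, h4⟩
      · rintro (h4 | ⟨_, h4⟩)
        · exact h4.2
        · exfalso
          subst h4
          exact H.P.notMem_of_fine (Ne.symm hb.1) h2 hb.2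
  · refine ⟨a, ⟨N_self a, by rw [D_self]; exact le_top⟩, fun h1 h2 => absurd ⟨h1, h2⟩ hc⟩

theorem conclusion (H : Setup F M g ρ ρ' τ τ' k k' f h) {n : ℕ} (hn : n + 3 ≤ M)
    (hv : ∀ a b, s(a, b) ∈ tau1 ρ τ k → N a b) (hv' : ∀ a b, s(a, b) ∈ tau1 ρ' τ' k' → N a b) :
    ∃ f1 : S → S, (∀ u, N u (f1 u) ∧ (g u : ℕ∞) ≤ D u (f1 u)) ∧
      ∀ a b, lev a + lev b ≤ 2 * n →
        (s(a, b) ∈ tau1 ρ' τ' k' ↔ (a ≠ b ∧ s(a, b) ∈ tau1 ρ τ k) ∨
          ∃ u, s(u, u) ∈ tau1 ρ τ k ∧ s(u, f1 u) = s(a, b)) := by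
  choose f1 h1 h2 using H.tau1_local
  refine ⟨f1, h1, ?_⟩
  intro a b hab
  by_cases hN : N a b
  swap
  · constructor
    · intro h3; exact absurd (hv' _ _ h3) hN
    · rintro (⟨_, h3⟩ | ⟨u, h3, h4⟩)
      · exact absurd (hv _ _ h3) hN
      · exfalso
        have h5 := (h1 u).1
        rw [Sym2.eq_iff] at h4
        rcases h4 with ⟨rfl, h4⟩ | ⟨rfl, h4⟩
        · rw [h4] at h5; exact hN h5
        · rw [h4] at h5; exact hN (N_symm h5)
  -- the claim when the first site is in `F`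
  have key : ∀ a b, lev a + lev b ≤ 2 * n → N a b → a ∈ F →
      (s(a, b) ∈ tau1 ρ' τ' k' ↔ (a ≠ b ∧ s(a, b) ∈ tau1 ρ τ k) ∨
          ∃ u, s(u, u) ∈ tau1 ρ τ k ∧ s(u, f1 u) = s(a, b)) := by
    intro a b hab hN ha
    have hlev : lev a ≤ n := by
      rcases hN with h3 | h3
      · subst h3; omega
      · rcases adj_lev h3 with h4 | h4 <;> omega
    rw [h2 a ha (by omega) b hN]
    constructor
    · rintro (h3 | ⟨h3, h4⟩)
      · exact Or.inl h3
      · exact Or.inr ⟨a, h3, by rw [h4]⟩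
    · rintro (h3 | ⟨u, h3, h4⟩)
      · exact Or.inl h3
      · right
        rw [Sym2.eq_iff] at h4
        rcases h4 with ⟨rfl, h4⟩ | ⟨rfl, h4⟩
        · exact ⟨h3, h4⟩
        · by_cases hua : u = a
          · subst hua; exact ⟨h3, h4⟩
          · exfalso
            have h5 := (h1 u).2
            rw [h4] at h5
            exact H.P.notMem_of_fine hua h5 ha
  by_cases ha : a ∈ F
  · exact key a b hab hN ha
  · by_cases hb : b ∈ F
    · have h3 := key b a (by omega) (N_symm hN) hb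
      rw [Sym2.eq_swap (a := b) (b := a)] at h3
      rw [h3, ne_comm]
    · have hlev := N_lev hN
      have hla : lev a + 1 ≤ M := by omega
      have hlb : lev b + 1 ≤ M := by omega
      constructor
      · intro h3
        exfalso
        rw [mem_tau1] at h3
        rcases h3 with ⟨h3, _⟩ | ⟨h3, _⟩
        · exact hb (H.Q.sup _ _ ((H.Q.view_out hla b ha).1 h3).1)
        · rcases h3 with ⟨w, h3⟩ | ⟨w, h3⟩ | ⟨_, h3, _⟩
          · exact H.act_out hla ha h3.1
          · exact H.act_out hlb hb h3.1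
          · exact hb (H.P.sup _ _ ((H.P.view_out hla b ha).1 h3).1)
      · rintro (⟨_, h3⟩ | ⟨u, h3, h4⟩)
        · exact absurd (H.mem_F_of_tau1 h3) ha
        · exfalso
          have h5 := H.mem_F_of_tau1 h3
          rw [Sym2.eq_iff] at h4
          rcases h4 with ⟨rfl, _⟩ | ⟨rfl, _⟩
          · exact ha h5
          · exact hb h5

end Setup

/-- a finite set of sites supporting a state -/
theorem exists_support (z : St S) : ∃ F : Set S, F.Finite ∧ (∀ a b, s(a, b) ∈ z.τ → a ∈ F) ∧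
    ∀ e j i, z.k e j i ≠ e → e ∈ F ∧ z.k e j i ∈ F := by
  refine ⟨ends z.τ ∪ {e | z.k e ≠ emp e} ∪
    ⋃ e ∈ {e | z.k e ≠ emp e}, (fun p : ℕ × ℕ => z.k e p.1 p.2) '' supp e (z.k e), ?_, ?_, ?_⟩
  · exact ((ends_finite z.τfin).union z.kfin).union
      (z.kfin.biUnion fun e _ => (z.kfin' e).image _)
  · intro a b h
    exact Or.inl (Or.inl ⟨b, h⟩)
  · intro e j i h
    have he : z.k e ≠ emp e := fun h' => h (by rw [h']; rfl)
    refine ⟨Or.inl (Or.inr he), Or.inr ?_⟩
    simp only [Set.mem_iUnion]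
    exact ⟨e, he, (j, i), h, rfl⟩

theorem continuous_L : Continuous (fun p : St S × St S => L p.1 p.2) := by
  classical
  apply continuous_of
  intro x z n g
  obtain ⟨F1, hF1, hx, _⟩ := exists_support x
  obtain ⟨F2, hF2, hz, hzk⟩ := exists_support z
  have hFf : (F1 ∪ F2).Finite := hF1.union hF2
  set F := F1 ∪ F2 with hF
  let g' : S → ℕ := fun u => g u + ∑ w ∈ hFf.toFinset, (sc u w + 1 + sep u w + sep w u)
  have hg' : ∀ u, ∀ w ∈ F, sc u w + 1 + sep u w + sep w u ≤ g' u := by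
    intro u w hw
    have h1 : sc u w + 1 + sep u w + sep w u ≤
        ∑ w ∈ hFf.toFinset, (sc u w + 1 + sep u w + sep w u) :=
      Finset.single_le_sum (f := fun w => sc u w + 1 + sep u w + sep w u)
        (fun _ _ => Nat.zero_le _) (hFf.mem_toFinset.2 hw)
    exact h1.trans (Nat.le_add_left _ _)
  have hgg : ∀ u, g u ≤ g' u := fun u => Nat.le_add_right _ _
  refine ⟨n + 4, g', ?_⟩
  rintro x' z' ⟨_, f, hf, hfr⟩ ⟨hk, h, hh, hhr⟩
  have hG1 : ∀ u, ∀ w ∈ F, sc u w < g' u := fun u w hw => by have := hg' u w hw; omega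
  have hG2 : ∀ u ∈ F, ∀ w ∈ F, sep u w ≤ g' u ∧ sep u w ≤ g' w := fun u hu w hw => by
    have h1 := hg' u w hw
    have h2 := hg' w u hu
    omega
  have H : Setup F (n + 4) g' x.τ x'.τ z.τ z'.τ z.k z'.k f h :=
    { P := ⟨hG1, hG2, fun a b hab => Or.inl (hx a b hab), x.τval, x'.τval, hf, hfr⟩
      Q := ⟨hG1, hG2, fun a b hab => Or.inr (hz a b hab), z.τval, z'.τval, hh, hhr⟩
      kval := z.kval
      kval' := z'.kval
      kF := fun e j i hne => ⟨Or.inr (hzk e j i hne).1, Or.inr (hzk e j i hne).2⟩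
      kc := hk }
  apply R_mono le_rfl hgg
  exact ⟨fun u hu => H.k1_close (by omega),
    H.conclusion (by omega) (L x z).τval (L x' z').τval⟩

/-- The rectification of the space. -/
noncomputable def phi : (St S × St S) ≃ₜ (St S × St S) where
  toFun p := (p.1, L p.1 (Th p.1 p.2))
  invFun p := (p.1, Th p.1 (L p.1 p.2))
  left_inv p := by simp only [L_L, Th_Th]
  right_inv p := by simp only [L_L, Th_Th]
  continuous_toFun := continuous_fst.prodMk
    (continuous_L.comp (continuous_fst.prodMk continuous_Th))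
  continuous_invFun := continuous_fst.prodMk
    (continuous_Th.comp (continuous_fst.prodMk continuous_L))

theorem phi_fst (p : St S × St S) : (phi p).1 = p.1 := rfl

theorem phi_diag (x : St S) : phi (x, x) = (x, St.zero) := by
  show (x, L x (Th x x)) = (x, St.zero)
  rw [L_Th_self]

end Pool.Agent.H85.Rect
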