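import Pool.Agent.H85.Rect.Geo

set_option autoImplicit false

/-!
# The dynamics

A configuration is a set `τ` of particles (unordered pairs `s(e, w)`, where `w = e` for a particle
sitting at a site and `w` a neighbour of `e` for a particle sitting on a bond) together with hidden
arrays `k e`.  A second set `ρ` of particles acts on configurations.
-/

namespace Pool.Agent.H85.Rect

open Geo

variable {S : Type} [Geo S]

/-- The end `e` is clean, except possibly for the label `w`. -/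
def Clean (ρ τ : Set (Sym2 S)) (k : S → ℕ → ℕ → S) (e w : S) : Prop :=
  (∀ q, s(e, q) ∈ ρ → q = w) ∧ (∀ q, s(e, q) ∈ τ → q = w) ∧ Emp e w (k e)

/-- The particle `s(e, w)` of `ρ` acts at the end `e`. -/
def Act (ρ τ : Set (Sym2 S)) (k : S → ℕ → ℕ → S) (e w : S) : Prop :=
  s(e, w) ∈ ρ ∧ (∀ q, s(e, q) ∈ ρ → q ≠ w → D e q < D e w) ∧
    (w = e ∨ (Clean ρ τ k w e ∧ ¬ Clean ρ τ k e w))

/-- The labels at `e` read by the particle `s(e, w)`. -/
def Tn (ρ τ : Set (Sym2 S)) (e w q : S) : Prop := s(e, q) ∈ τ ∧ (s(e, q) ∈ ρ → q = w)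

/-- `t` is the label which `s(e, w)` would touch at `e`. -/
def Cand (ρ τ : Set (Sym2 S)) (k : S → ℕ → ℕ → S) (e w t : S) : Prop :=
  N e t ∧ (((∀ q, ¬ Tn ρ τ e w q) ∧ IsTop e t (tw e w (k e))) ∨
    (Tn ρ τ e w t ∧ ∀ q, Tn ρ τ e w q → q = t))

/-- the action of `s(e, w)` touching `t` is allowed -/
def Test (ρ : Set (Sym2 S)) (e w t : S) : Prop := t ≠ e → ∀ q, s(t, q) ∈ ρ → s(t, q) = s(e, w)

/-- The particle `s(e, w)` acts at `e` and touches `s(e, t)`. -/
def Touch (ρ τ : Set (Sym2 S)) (k : S → ℕ → ℕ → S) (e w t : S) : Prop :=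
  Act ρ τ k e w ∧ Cand ρ τ k e w t ∧ Test ρ e w t

open Classical in
/-- The new array. -/
noncomputable def newk (ρ τ : Set (Sym2 S)) (e w t : S) (a : ℕ → ℕ → S) : ℕ → ℕ → S :=
  if Tn ρ τ e w t then tw e w (push e t a) else rest e t (tw e w a)

/-- The particles which are toggled. -/
def Dl (ρ τ : Set (Sym2 S)) (k : S → ℕ → ℕ → S) (a b : S) : Prop :=
  (∃ w, Touch ρ τ k a w b) ∨ (∃ w, Touch ρ τ k b w a) ∨
    (a ≠ b ∧ s(a, b) ∈ ρ ∧ ¬ Act ρ τ k a b ∧ ¬ Act ρ τ k b a)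

theorem Dl_symm (ρ τ : Set (Sym2 S)) (k : S → ℕ → ℕ → S) : Std.Symm (Dl ρ τ k) := by
  constructor
  rintro a b (h | h | ⟨h1, h2, h3, h4⟩)
  · exact Or.inr (Or.inl h)
  · exact Or.inl h
  · exact Or.inr (Or.inr ⟨h1.symm, by rwa [Sym2.eq_swap], h4, h3⟩)

/-- The new set of particles. -/
def tau1 (ρ τ : Set (Sym2 S)) (k : S → ℕ → ℕ → S) : Set (Sym2 S) :=
  {y | Xor (y ∈ τ) (y ∈ Sym2.fromRel (Dl_symm ρ τ k))}

open Classical in
/-- The new arrays. -/
noncomputable def k1 (ρ τ : Set (Sym2 S)) (k : S → ℕ → ℕ → S) (e : S) : ℕ → ℕ → S :=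
  if h : ∃ p : S × S, Touch ρ τ k e p.1 p.2 then newk ρ τ e h.choose.1 h.choose.2 (k e) else k e

theorem mem_tau1 {ρ τ : Set (Sym2 S)} {k : S → ℕ → ℕ → S} {a b : S} :
    s(a, b) ∈ tau1 ρ τ k ↔ Xor (s(a, b) ∈ τ) (Dl ρ τ k a b) := by
  unfold tau1
  rw [Set.mem_ofPred_eq, Sym2.fromRel_prop]

section

variable {ρ τ : Set (Sym2 S)} {k : S → ℕ → ℕ → S}

theorem Act_unique {e w w' : S} (h : Act ρ τ k e w) (h' : Act ρ τ k e w') : w = w' := by
  by_contra hne
  have h1 := h.2.1 w' h'.1 (Ne.symm hne)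
  have h2 := h'.2.1 w h.1 hne
  exact lt_asymm h1 h2

theorem Cand_unique {e w t t' : S} (h : Cand ρ τ k e w t) (h' : Cand ρ τ k e w t') : t = t' := by
  rcases h.2 with ⟨h1, h2⟩ | ⟨h1, h2⟩
  · rcases h'.2 with ⟨h3, h4⟩ | ⟨h3, h4⟩
    · exact isTop_unique h2 h4
    · exact absurd h3 (h1 _)
  · rcases h'.2 with ⟨h3, h4⟩ | ⟨h3, h4⟩
    · exact absurd h1 (h3 _)
    · exact h4 _ h1

theorem Touch_unique {e w t w' t' : S} (h : Touch ρ τ k e w t) (h' : Touch ρ τ k e w' t') :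
    w = w' ∧ t = t' := by
  have h1 := Act_unique h.1 h'.1
  subst h1
  exact ⟨rfl, Cand_unique h.2.1 h'.2.1⟩

theorem k1_touch {e w t : S} (h : Touch ρ τ k e w t) :
    k1 ρ τ k e = newk ρ τ e w t (k e) := by
  classical
  have hex : ∃ p : S × S, Touch ρ τ k e p.1 p.2 := ⟨(w, t), h⟩
  obtain ⟨h1, h2⟩ := Touch_unique hex.choose_spec h
  unfold k1
  rw [dif_pos hex, h1, h2]

theorem k1_no {e : S} (h : ∀ w t, ¬ Touch ρ τ k e w t) : k1 ρ τ k e = k e := by
  unfold k1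
  rw [dif_neg]
  rintro ⟨p, hp⟩
  exact h _ _ hp

theorem newk_pos {e w t : S} {a : ℕ → ℕ → S} (h : Tn ρ τ e w t) :
    newk ρ τ e w t a = tw e w (push e t a) := by
  unfold newk; rw [if_pos h]

theorem newk_neg {e w t : S} {a : ℕ → ℕ → S} (h : ¬ Tn ρ τ e w t) :
    newk ρ τ e w t a = rest e t (tw e w a) := by
  unfold newk; rw [if_neg h]

theorem act_not_both {e q : S} (hne : q ≠ e) (h : Act ρ τ k e q) (h' : Act ρ τ k q e) : False := by
  rcases h.2.2 with h1 | ⟨_, h2⟩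
  · exact hne h1
  · rcases h'.2.2 with h3 | ⟨h3, _⟩
    · exact hne h3.symm
    · exact h2 h3

theorem no_touch_from {e w q w' : S} (hne : q ≠ e) (ha : Act ρ τ k e w)
    (h : Touch ρ τ k q w' e) : False := by
  have h1 := h.2.2 hne.symm w ha.1
  rw [Sym2.eq_iff] at h1
  rcases h1 with ⟨h2, _⟩ | ⟨h2, h3⟩
  · exact hne h2.symm
  · subst h2; subst h3
    exact act_not_both hne ha h.1

theorem Tn_tau1 {e w : S} (ha : Act ρ τ k e w) (q : S) :
    Tn ρ (tau1 ρ τ k) e w q ↔ Xor (Tn ρ τ e w q) (Touch ρ τ k e w q) := by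
  by_cases hq : s(e, q) ∈ ρ → q = w
  · have hD : Dl ρ τ k e q ↔ Touch ρ τ k e w q := by
      constructor
      · rintro (⟨w', h⟩ | ⟨w', h⟩ | ⟨h1, h2, h3, h4⟩)
        · have := Act_unique ha h.1
          subst this; exact h
        · by_cases hqe : q = e
          · subst hqe
            have := Act_unique ha h.1
            subst this; exact h
          · exact (no_touch_from hqe ha h).elim
        · have := hq h2
          subst this
          exact absurd ha h3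
      · intro h
        exact Or.inl ⟨w, h⟩
    unfold Tn
    rw [mem_tau1, hD]
    constructor
    · rintro ⟨h1, _⟩
      rcases h1 with ⟨h1, h2⟩ | ⟨h1, h2⟩
      · exact Or.inl ⟨⟨h1, hq⟩, h2⟩
      · exact Or.inr ⟨h1, fun h => h2 h.1⟩
    · rintro (⟨h1, h2⟩ | ⟨h1, h2⟩)
      · exact ⟨Or.inl ⟨h1.1, h2⟩, hq⟩
      · exact ⟨Or.inr ⟨h1, fun h => h2 ⟨h, hq⟩⟩, hq⟩
  · have h1 : ¬ Tn ρ τ e w q := fun h => hq h.2
    have h2 : ¬ Tn ρ (tau1 ρ τ k) e w q := fun h => hq h.2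
    have h3 : ¬ Touch ρ τ k e w q := by
      intro h
      push Not at hq
      obtain ⟨hq1, hq2⟩ := hq
      by_cases hqe : q = e
      · subst hqe
        have := ha.2.1 q hq1 hq2
        rw [D_self] at this
        exact not_top_lt this
      · have h4 := h.2.2 hqe e (by rwa [Sym2.eq_swap])
        rw [Sym2.eq_swap, Sym2.eq_iff] at h4
        rcases h4 with ⟨_, h5⟩ | ⟨h5, h6⟩
        · exact hq2 h5
        · exact hqe h6
    constructor
    · intro h; exact absurd h h2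
    · rintro (⟨h, _⟩ | ⟨h, _⟩)
      · exact absurd h h1
      · exact absurd h h3

theorem Clean_iff {e w : S} (hne : e ≠ w) (hρ : s(e, w) ∈ ρ) :
    Clean ρ (tau1 ρ τ k) (k1 ρ τ k) e w ↔ Clean ρ τ k e w := by
  by_cases hcl : ∀ q, s(e, q) ∈ ρ → q = w
  swap
  · constructor
    · intro h; exact absurd h.1 hcl
    · intro h; exact absurd h.1 hcl
  by_cases hT : ∃ w' t, Touch ρ τ k e w' t
  · obtain ⟨w', t, hT⟩ := hT
    have hw' : w' = w := hcl w' hT.1.1
    subst hw'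
    have hnc : ¬ Clean ρ τ k e w' := by
      rcases hT.1.2.2 with h | h
      · exact absurd h hne.symm
      · exact h.2
    constructor
    swap
    · intro h; exact absurd h hnc
    intro hc
    exfalso
    apply hnc
    have hTn : ∀ q, Tn ρ τ e w' q ↔ s(e, q) ∈ τ := fun q =>
      ⟨fun h => h.1, fun h => ⟨h, fun h' => hcl q h'⟩⟩
    have hk := k1_touch hT
    have hE := hc.2.2
    have h1 := tw_of_Emp hE
    rcases hT.2.1.2 with ⟨h2, h3⟩ | ⟨h2, h3⟩
    · have h4 : Tn ρ (tau1 ρ τ k) e w' t := by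
        rw [Tn_tau1 hT.1]
        exact Or.inr ⟨hT, h2 t⟩
      have htw : t = w' := hc.2.1 t h4.1
      subst htw
      rw [newk_neg (h2 t)] at hk
      have h5 : tw e t (k1 ρ τ k e) = tw e t (k e) := by
        rw [h1, hk, push_rest h3]
      have h6 : k1 ρ τ k e = k e := by
        rw [← tw_tw e t (k1 ρ τ k e), h5, tw_tw]
      refine ⟨hcl, fun q hq => absurd ((hTn q).2 hq) (h2 q), ?_⟩
      rw [← h6]; exact hE
    · rw [newk_pos h2] at hk
      have h5 : push e t (k e) = push e w' (k1 ρ τ k e) := by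
        rw [← h1, hk, tw_tw]
      have htw : t = w' := isTop_unique (isTop_push e t (k e)) (by rw [h5]; exact isTop_push _ _ _)
      subst htw
      have h6 : k e = k1 ρ τ k e := push_inj h5
      refine ⟨hcl, fun q hq => h3 q ((hTn q).2 hq), ?_⟩
      rw [h6]; exact hE
  · push Not at hT
    have hk : k1 ρ τ k e = k e := k1_no hT
    have hτ : ∀ q, q ≠ w → (s(e, q) ∈ tau1 ρ τ k ↔ s(e, q) ∈ τ) := by
      intro q hq
      have hD : ¬ Dl ρ τ k e q := by
        rintro (⟨w', h⟩ | ⟨w', h⟩ | ⟨_, h2, _⟩)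
        · exact hT _ _ h
        · by_cases hqe : q = e
          · subst hqe; exact hT _ _ h
          · have h1 := h.2.2 (Ne.symm hqe) w hρ
            rw [Sym2.eq_iff] at h1
            rcases h1 with ⟨h2, _⟩ | ⟨_, h2⟩
            · exact hqe h2.symm
            · exact hq h2.symm
        · exact hq (hcl q h2)
      rw [mem_tau1]
      constructor
      · rintro (⟨h, _⟩ | ⟨h, _⟩)
        · exact h
        · exact absurd h hD
      · intro h; exact Or.inl ⟨h, hD⟩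
    unfold Clean
    rw [hk]
    constructor
    · rintro ⟨h1, h2, h3⟩
      refine ⟨h1, fun q hq => ?_, h3⟩
      by_contra hqw
      exact hqw (h2 q ((hτ q hqw).2 hq))
    · rintro ⟨h1, h2, h3⟩
      refine ⟨h1, fun q hq => ?_, h3⟩
      by_contra hqw
      exact hqw (h2 q ((hτ q hqw).1 hq))

theorem Act_iff {e w : S} :
    Act ρ (tau1 ρ τ k) (k1 ρ τ k) e w ↔ Act ρ τ k e w := by
  unfold Act
  constructor
  · rintro ⟨h1, h2, h3⟩
    refine ⟨h1, h2, ?_⟩
    rcases h3 with h3 | ⟨h3, h4⟩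
    · exact Or.inl h3
    · by_cases hne : w = e
      · exact Or.inl hne
      · right
        rw [Clean_iff hne (by rwa [Sym2.eq_swap])] at h3
        rw [Clean_iff (Ne.symm hne) h1] at h4
        exact ⟨h3, h4⟩
  · rintro ⟨h1, h2, h3⟩
    refine ⟨h1, h2, ?_⟩
    rcases h3 with h3 | ⟨h3, h4⟩
    · exact Or.inl h3
    · by_cases hne : w = e
      · exact Or.inl hne
      · right
        rw [Clean_iff hne (by rwa [Sym2.eq_swap]), Clean_iff (Ne.symm hne) h1]
        exact ⟨h3, h4⟩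

theorem Touch_step {e w t : S} (h : Touch ρ τ k e w t) :
    Touch ρ (tau1 ρ τ k) (k1 ρ τ k) e w t ∧
      newk ρ (tau1 ρ τ k) e w t (k1 ρ τ k e) = k e := by
  have hk := k1_touch h
  rcases h.2.1.2 with ⟨h2, h3⟩ | ⟨h2, h3⟩
  · have hT : Tn ρ (tau1 ρ τ k) e w t := by
      rw [Tn_tau1 h.1]; exact Or.inr ⟨h, h2 t⟩
    refine ⟨⟨Act_iff.2 h.1, ⟨h.2.1.1, Or.inr ⟨hT, fun q hq => ?_⟩⟩, h.2.2⟩, ?_⟩
    · rw [Tn_tau1 h.1] at hq
      rcases hq with ⟨hq, _⟩ | ⟨hq, _⟩
      · exact absurd hq (h2 q)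
      · exact Cand_unique hq.2.1 h.2.1
    · rw [newk_pos hT, hk, newk_neg (h2 t), push_rest h3, tw_tw]
  · have hT : ∀ q, ¬ Tn ρ (tau1 ρ τ k) e w q := by
      intro q hq
      rw [Tn_tau1 h.1] at hq
      rcases hq with ⟨hq, hq2⟩ | ⟨hq, hq2⟩
      · have := h3 q hq
        subst this; exact hq2 h
      · have := Cand_unique hq.2.1 h.2.1
        subst this; exact hq2 h2
    refine ⟨⟨Act_iff.2 h.1, ⟨h.2.1.1, Or.inl ⟨hT, ?_⟩⟩, h.2.2⟩, ?_⟩
    · rw [hk, newk_pos h2, tw_tw]; exact isTop_push _ _ _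
    · rw [newk_neg (hT t), hk, newk_pos h2, tw_tw, rest_push]

theorem Touch_iff {e w t : S} :
    Touch ρ (tau1 ρ τ k) (k1 ρ τ k) e w t ↔ Touch ρ τ k e w t := by
  refine ⟨fun h => ?_, fun h => (Touch_step h).1⟩
  have ha : Act ρ τ k e w := Act_iff.1 h.1
  by_cases hT : ∃ t', Touch ρ τ k e w t'
  · obtain ⟨t', hT⟩ := hT
    have := (Touch_unique h (Touch_step hT).1).2
    subst this; exact hT
  · push Not at hT
    have hk : k1 ρ τ k e = k e := k1_no fun w' t' h' => by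
      have := Act_unique ha h'.1
      subst this; exact hT _ h'
    have hTn : ∀ q, Tn ρ (tau1 ρ τ k) e w q ↔ Tn ρ τ e w q := by
      intro q
      rw [Tn_tau1 ha]
      constructor
      · rintro (⟨h, _⟩ | ⟨h, _⟩)
        · exact h
        · exact absurd h (hT q)
      · intro h; exact Or.inl ⟨h, hT q⟩
    refine ⟨ha, ?_, h.2.2⟩
    have hc := h.2.1
    unfold Cand at hc ⊢
    simp only [hTn, hk] at hc
    exact hc

theorem Dl_iff {a b : S} : Dl ρ (tau1 ρ τ k) (k1 ρ τ k) a b ↔ Dl ρ τ k a b := by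
  unfold Dl
  simp only [Touch_iff, Act_iff]

theorem tau1_tau1 : tau1 ρ (tau1 ρ τ k) (k1 ρ τ k) = τ := by
  ext y
  induction y using Sym2.ind with
  | _ a b =>
    rw [mem_tau1, mem_tau1, Dl_iff]
    unfold Xor
    by_cases hA : s(a, b) ∈ τ <;> by_cases hD : Dl ρ τ k a b <;> simp [hA, hD]

theorem k1_k1 : k1 ρ (tau1 ρ τ k) (k1 ρ τ k) = k := by
  funext e
  by_cases h : ∃ w t, Touch ρ τ k e w t
  · obtain ⟨w, t, h⟩ := h
    obtain ⟨h1, h2⟩ := Touch_step h
    rw [k1_touch h1, h2]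
  · push Not at h
    rw [k1_no (fun w t h' => h w t (Touch_iff.1 h')), k1_no h]

end

/-! ### The action on the empty configuration -/

section

variable {ρ : Set (Sym2 S)}

omit [Geo S] in
theorem Tn_empty (e w q : S) : ¬ Tn ρ ∅ e w q := fun h => h.1

theorem Cand_empty {e w : S} (h : N e w) : Cand ρ ∅ emp e w w := by
  refine ⟨h, Or.inl ⟨Tn_empty e w, ?_⟩⟩
  rw [tw_of_Emp (Emp_emp e w)]
  exact isTop_push _ _ _

theorem Touch_empty (hN : ∀ a b, s(a, b) ∈ ρ → N a b) {e w t : S} :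
    Touch ρ ∅ emp e w t ↔ Act ρ ∅ emp e w ∧ t = w := by
  constructor
  · intro h
    exact ⟨h.1, Cand_unique h.2.1 (Cand_empty (hN _ _ h.1.1))⟩
  · rintro ⟨h, rfl⟩
    refine ⟨h, Cand_empty (hN _ _ h.1), fun hne q hq => ?_⟩
    rcases h.2.2 with h1 | ⟨h1, _⟩
    · exact absurd h1 hne
    · rw [h1.1 q hq, Sym2.eq_swap]

theorem tau1_empty (hN : ∀ a b, s(a, b) ∈ ρ → N a b) : tau1 ρ ∅ emp = ρ := by
  ext y
  induction y using Sym2.ind with
  | _ a b =>
    rw [mem_tau1]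
    have h : Dl ρ ∅ emp a b ↔ s(a, b) ∈ ρ := by
      unfold Dl
      simp only [Touch_empty hN]
      constructor
      · rintro (⟨w, h, rfl⟩ | ⟨w, h, rfl⟩ | h)
        · exact h.1
        · rw [Sym2.eq_swap]; exact h.1
        · exact h.2.1
      · intro h
        by_cases hab : a = b
        · subst hab
          left
          refine ⟨a, ⟨h, fun q _ hq => ?_, Or.inl rfl⟩, rfl⟩
          rw [D_self]; exact D_lt_top (Ne.symm hq)
        · by_cases h1 : Act ρ ∅ emp a b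
          · exact Or.inl ⟨b, h1, rfl⟩
          · by_cases h2 : Act ρ ∅ emp b a
            · exact Or.inr (Or.inl ⟨a, h2, rfl⟩)
            · exact Or.inr (Or.inr ⟨hab, h, h1, h2⟩)
    rw [h]
    unfold Xor
    simp

theorem k1_empty (hN : ∀ a b, s(a, b) ∈ ρ → N a b) : k1 ρ ∅ emp = emp := by
  funext e
  by_cases h : ∃ w t, Touch ρ ∅ emp e w t
  · obtain ⟨w, t, h⟩ := h
    have ht := ((Touch_empty hN).1 h).2
    subst ht
    rw [k1_touch h, newk_neg (Tn_empty e t t), tw_of_Emp (Emp_emp e t), rest_push]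
  · push Not at h
    exact k1_no h

end

end Pool.Agent.H85.Rect
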