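import Pool.Agent.H85.Rect.Final

set_option autoImplicit false

/-!
# Further properties of the example

The space is totally separated, complete regularity fails at each of its points, and its
cardinality is at most that of the continuum.
-/

namespace Pool.Agent.H85.Rect

open Geo Filter PiNat

section

variable {S : Type} [Geo S]

/-- A set which is locally constant for the relations `R` is clopen. -/
theorem isClopen_of_R {U : Set (St S)}
    (H : ∀ z, ∃ n g, ∀ z', R n g z z' → (z' ∈ U ↔ z ∈ U)) : IsClopen U := by
  refine ⟨?_, ?_⟩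
  · rw [← isOpen_compl_iff, isOpen_iff]
    intro z hz
    obtain ⟨n, g, h⟩ := H z
    exact ⟨n, g, fun z' hR hz' => hz ((h z' hR).1 hz')⟩
  · rw [isOpen_iff]
    intro z hz
    obtain ⟨n, g, h⟩ := H z
    exact ⟨n, g, fun z' hR => (h z' hR).2 hz⟩

/-- The entries of the hidden arrays are locally constant. -/
theorem clopen_entry (u : S) (j i : ℕ) (s : S) : IsClopen {z : St S | z.k u j i = s} := by
  apply isClopen_of_R
  intro z
  refine ⟨lev u, fun _ => j + 1, fun z' hR => ?_⟩
  have h := hR.1 u le_rfl j (Nat.lt_succ_self j)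
  show z'.k u j i = s ↔ z.k u j i = s
  rw [h]

/-- The presence of a particle on a given bond is locally constant. -/
theorem clopen_bond {a b : S} (hab : a ≠ b) : IsClopen {z : St S | s(a, b) ∈ z.τ} := by
  apply isClopen_of_R
  intro z
  refine ⟨lev a + lev b, fun _ => sc a b + 1, fun z' hR => ?_⟩
  obtain ⟨_, f, hf, hr⟩ := hR
  show s(a, b) ∈ z'.τ ↔ s(a, b) ∈ z.τ
  rw [hr a b (by omega)]
  constructor
  · rintro (⟨_, h⟩ | ⟨u, _, h2⟩)
    · exact h
    · exfalso
      have h3 := (hf u).2
      rw [Sym2.eq_iff] at h2
      rcases h2 with ⟨rfl, h2⟩ | ⟨rfl, h2⟩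
      · rw [h2, D_ne hab] at h3
        have h4 : sc u b + 1 ≤ sc u b := by exact_mod_cast h3
        omega
      · rw [h2, D_ne hab.symm] at h3
        have h4 : sc a u + 1 ≤ sc u a := by exact_mod_cast h3
        rw [sc_symm u a] at h4
        omega
  · intro h
    exact Or.inl ⟨hab, h⟩

/-- the labels of the particles at `a` -/
def star (τ : Set (Sym2 S)) (a : S) : Set S := {b | s(a, b) ∈ τ}

/-- the labels of the particles on the bonds at `a` -/
def star' (τ : Set (Sym2 S)) (a : S) : Set S := {b | a ≠ b ∧ s(a, b) ∈ τ}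

omit [Geo S] in
theorem star_finite {τ : Set (Sym2 S)} (h : τ.Finite) (a : S) : (star τ a).Finite := by
  apply (h.preimage (f := fun b => s(a, b)) _).subset
  · intro b hb; exact hb
  · intro b _ c _ hbc
    have h1 : s(a, b) = s(a, c) := hbc
    exact Sym2.congr_right.1 h1

omit [Geo S] in
theorem star'_finite {τ : Set (Sym2 S)} (h : τ.Finite) (a : S) : (star' τ a).Finite :=
  (star_finite h a).subset fun _ hb => hb.2

omit [Geo S] in
theorem star_of_mem {τ : Set (Sym2 S)} {a : S} (h : s(a, a) ∈ τ) :
    star τ a = insert a (star' τ a) := by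
  ext b
  simp only [star, star', Set.mem_ofPred_eq, Set.mem_insert_iff]
  constructor
  · intro hb
    by_cases hab : a = b
    · exact Or.inl hab.symm
    · exact Or.inr ⟨hab, hb⟩
  · rintro (rfl | ⟨_, hb⟩)
    · exact h
    · exact hb

omit [Geo S] in
theorem star_of_notMem {τ : Set (Sym2 S)} {a : S} (h : s(a, a) ∉ τ) :
    star τ a = star' τ a := by
  ext b
  simp only [star, star', Set.mem_ofPred_eq]
  constructor
  · intro hb
    refine ⟨?_, hb⟩
    rintro rfl
    exact h hb
  · rintro ⟨_, hb⟩
    exact hb

/-- The number of particles at `a` is locally constant. -/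
theorem clopen_star (a : S) (m : ℕ) : IsClopen {z : St S | (star z.τ a).ncard = m} := by
  classical
  apply isClopen_of_R
  intro z
  have hfin := star'_finite z.τfin a
  let c : ℕ := ∑ b ∈ hfin.toFinset, (sc a b + 1)
  have hc : ∀ b ∈ star' z.τ a, sc a b < c := by
    intro b hb
    have h3 : sc a b + 1 ≤ ∑ b ∈ hfin.toFinset, (sc a b + 1) :=
      Finset.single_le_sum (f := fun b => sc a b + 1)
        (fun _ _ => Nat.zero_le _) (hfin.mem_toFinset.2 hb)
    exact h3
  refine ⟨lev a + 1, fun u => sc u a + 1 + c, fun z' hR => ?_⟩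
  obtain ⟨_, f, hf, hr⟩ := hR
  have key : ∀ b, s(a, b) ∈ z'.τ ↔ (a ≠ b ∧ s(a, b) ∈ z.τ) ∨ (s(a, a) ∈ z.τ ∧ f a = b) := by
    intro b
    by_cases hN : N a b
    · have hlev := N_lev hN
      rw [hr a b (by omega)]
      constructor
      · rintro (h | ⟨u, h1, h2⟩)
        · exact Or.inl h
        · right
          by_cases hu : u = a
          · subst hu
            refine ⟨h1, ?_⟩
            exact Sym2.congr_right.1 h2
          · exfalso
            rw [Sym2.eq_iff] at h2
            rcases h2 with ⟨h2, _⟩ | ⟨rfl, h2⟩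
            · exact hu h2
            · have h3 := (hf u).2
              rw [h2, D_ne hu] at h3
              have h4 : sc u a + 1 + c ≤ sc u a := by exact_mod_cast h3
              omega
      · rintro (h | ⟨h1, h2⟩)
        · exact Or.inl h
        · exact Or.inr ⟨a, h1, by rw [h2]⟩
    · constructor
      · intro h; exact absurd (z'.τval _ _ h) hN
      · rintro (⟨_, h⟩ | ⟨_, h⟩)
        · exact absurd (z.τval _ _ h) hN
        · exact absurd (h ▸ (hf a).1) hN
  have hcard : (star z'.τ a).ncard = (star z.τ a).ncard := by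
    by_cases hm : s(a, a) ∈ z.τ
    · have h1 : star z'.τ a = insert (f a) (star' z.τ a) := by
        ext b
        simp only [star, star', Set.mem_ofPred_eq, Set.mem_insert_iff]
        rw [key b]
        constructor
        · rintro (h | ⟨_, h⟩)
          · exact Or.inr h
          · exact Or.inl h.symm
        · rintro (h | h)
          · exact Or.inr ⟨hm, h.symm⟩
          · exact Or.inl h
      have h2 : f a ∉ star' z.τ a := by
        intro h
        have h3 := (hf a).2
        rw [D_ne h.1] at h3
        have h4 : sc a a + 1 + c ≤ sc a (f a) := by exact_mod_cast h3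
        have h5 := hc _ h
        omega
      have h3 : a ∉ star' z.τ a := fun h => h.1 rfl
      rw [h1, star_of_mem hm, Set.ncard_insert_of_notMem h2 hfin,
        Set.ncard_insert_of_notMem h3 hfin]
    · have h1 : star z'.τ a = star' z.τ a := by
        ext b
        simp only [star, star', Set.mem_ofPred_eq]
        rw [key b]
        constructor
        · rintro (h | ⟨h, _⟩)
          · exact h
          · exact absurd h hm
        · intro h; exact Or.inl h
      rw [h1, star_of_notMem hm]
  show (star z'.τ a).ncard = m ↔ (star z.τ a).ncard = m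
  rw [hcard]

/-- Any two points are separated by a clopen set. -/
theorem exists_clopen {z z' : St S} (hne : z ≠ z') :
    ∃ U : Set (St S), IsClopen U ∧ z ∈ U ∧ z' ∉ U := by
  by_cases hk : z.k = z'.k
  · by_cases hb : ∀ a b, a ≠ b → (s(a, b) ∈ z.τ ↔ s(a, b) ∈ z'.τ)
    · -- they differ at a site
      have hs : ∃ a, ¬ (s(a, a) ∈ z.τ ↔ s(a, a) ∈ z'.τ) := by
        by_contra hcon
        push Not at hcon
        apply hne
        apply St.ext hk
        ext y
        induction y using Sym2.ind with
        | _ a b =>
          by_cases hab : a = b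
          · subst hab; exact hcon a
          · exact hb a b hab
      obtain ⟨a, ha⟩ := hs
      have hst : star' z.τ a = star' z'.τ a := by
        ext b
        simp only [star', Set.mem_ofPred_eq]
        constructor
        · rintro ⟨h1, h2⟩; exact ⟨h1, (hb a b h1).1 h2⟩
        · rintro ⟨h1, h2⟩; exact ⟨h1, (hb a b h1).2 h2⟩
      refine ⟨{w | (star w.τ a).ncard = (star z.τ a).ncard}, clopen_star a _, rfl, ?_⟩
      show ¬ ((star z'.τ a).ncard = (star z.τ a).ncard)
      intro hcard
      have h3 : a ∉ star' z.τ a := fun h => h.1 rfl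
      have h3' : a ∉ star' z'.τ a := fun h => h.1 rfl
      by_cases h1 : s(a, a) ∈ z.τ
      · have h2 : s(a, a) ∉ z'.τ := fun h => ha ⟨fun _ => h, fun _ => h1⟩
        rw [star_of_mem h1, star_of_notMem h2, hst,
          Set.ncard_insert_of_notMem h3' (star'_finite z'.τfin a)] at hcard
        omega
      · have h2 : s(a, a) ∈ z'.τ := by
          by_contra h
          exact ha ⟨fun h' => absurd h' h1, fun h' => absurd h' h⟩
        rw [star_of_notMem h1, star_of_mem h2, ← hst,
          Set.ncard_insert_of_notMem h3 (star'_finite z.τfin a)] at hcard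
        omega
    · push Not at hb
      obtain ⟨a, b, hab, h⟩ := hb
      rcases h with ⟨h1, h2⟩ | ⟨h1, h2⟩
      · exact ⟨_, clopen_bond hab, h1, h2⟩
      · exact ⟨_, (clopen_bond hab).compl, h1, fun h3 => h3 h2⟩
  · have : ∃ u j i, z.k u j i ≠ z'.k u j i := by
      by_contra hcon
      push Not at hcon
      apply hk
      funext u j i
      exact hcon u j i
    obtain ⟨u, j, i, h⟩ := this
    exact ⟨_, clopen_entry u j i (z.k u j i), rfl, fun h' => h (Eq.symm h')⟩

end

/-- Every continuous function which is constant on the closed set of the configurations with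
a particle at a site of level zero has the same value at the empty configuration. -/
theorem zero_glued {f : St Site → ℝ} (hf : Continuous f) {c : ℝ}
    (h : ∀ z ∈ {z : St Site | ∃ u, Geo.lev u = 0 ∧ s(u, u) ∈ z.τ}, f z = c) :
    f St.zero = c := by
  by_contra hne
  have hd : c - f St.zero ≠ 0 := sub_ne_zero.2 (Ne.symm hne)
  let G : St Site → ℝ := fun z => (f z - f St.zero) / (c - f St.zero)
  have hG : Continuous G := (hf.sub continuous_const).div_const _
  have hG1 : ∀ u : Site, u.lv = 0 → G (pt u) = 1 := by
    intro u hu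
    have h1 : f (pt u) = c := h _ ⟨u, hu, rfl⟩
    show (f (pt u) - f St.zero) / (c - f St.zero) = 1
    rw [h1]
    exact div_self hd
  have hG0 : G St.zero = 0 := by
    show (f St.zero - f St.zero) / (c - f St.zero) = 0
    rw [sub_self, zero_div]
  have h1 : G ⁻¹' Metric.ball (G St.zero) (1 / 2) ∈ nhds (St.zero : St Site) :=
    hG.continuousAt (Metric.ball_mem_nhds _ (by norm_num))
  obtain ⟨⟨n, g⟩, _, h2⟩ := (nhds_basis (St.zero : St Site)).mem_iff.1 h1
  obtain ⟨x, m, hx⟩ := descent hG hG1 (n + 1)
  obtain ⟨t, ht, htx⟩ := exists_mem_A (n + 1) x m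
  let u : Site := ⟨n + 1, t, ht⟩
  have h3 := hx u rfl htx
  have h4 : G (pt u) ∈ Metric.ball (G St.zero) (1 / 2) :=
    h2 (R_high (show n < Geo.lev u from Nat.lt_succ_self n))
  rw [hG0, Metric.mem_ball, Real.dist_eq, sub_zero, abs_lt] at h4
  have h5 : (0 : ℝ) < (1 / 2) ^ (n + 1 + 1) := by positivity
  linarith [h4.2]

/-- Complete regularity fails at each point. -/
theorem glued (x : St Site) : ∃ F : Set (St Site), IsClosed F ∧ x ∉ F ∧
    ∀ f : St Site → ℝ, Continuous f → ∀ c : ℝ, (∀ y ∈ F, f y = c) → f x = c := by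
  refine ⟨trans x ⁻¹' {z : St Site | ∃ u, Geo.lev u = 0 ∧ s(u, u) ∈ z.τ},
    isClosed_level_zero.preimage (trans x).continuous, ?_, ?_⟩
  · show trans x x ∉ {z : St Site | ∃ u, Geo.lev u = 0 ∧ s(u, u) ∈ z.τ}
    rw [trans_self]
    rintro ⟨u, _, hu⟩
    exact absurd hu (Set.notMem_empty _)
  · intro f hf c hc
    have h1 : Continuous (fun z => f ((trans x).symm z)) := hf.comp (trans x).symm.continuous
    have h2 := zero_glued h1 (c := c) (fun z hz => hc ((trans x).symm z) (by
      rw [Set.mem_preimage, Homeomorph.apply_symm_apply]; exact hz))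
    have h3 : (trans x).symm St.zero = x := by
      rw [← trans_self x, Homeomorph.symm_apply_apply]
    rw [h3] at h2
    exact h2

/-! ### Cardinality -/

theorem mk_Site_le : Cardinal.mk Site ≤ Cardinal.continuum := by
  have h : Function.Injective (fun u : Site => (u.lv, u.p)) := by
    intro u v huv
    simp only [Prod.mk.injEq] at huv
    exact Site.ext' huv.1 huv.2
  refine (Cardinal.mk_le_of_injective h).trans ?_
  rw [Cardinal.mk_prod, Cardinal.lift_id, Cardinal.lift_id]
  have h2 : Cardinal.mk Z = Cardinal.continuum := by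
    rw [← Cardinal.power_def, Cardinal.mk_fintype (ZMod 3), Cardinal.mk_nat, ZMod.card]
    exact Cardinal.nat_power_aleph0 (by norm_num)
  rw [h2, Cardinal.mk_nat, Cardinal.aleph0_mul_continuum]

theorem mk_finset_le {α : Type} (h : Cardinal.mk α ≤ Cardinal.continuum) :
    Cardinal.mk (Finset α) ≤ Cardinal.continuum := by
  rcases finite_or_infinite α with hf | hf
  · have : Finite (Finset α) := inferInstance
    exact (Cardinal.lt_aleph0_of_finite _).le.trans Cardinal.aleph0_le_continuum
  · rw [Cardinal.mk_finset_of_infinite]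
    exact h

open Classical in
/-- a code of a configuration by two finite sets -/
noncomputable def code (z : St Site) :
    Finset (Site × ℕ × ℕ × Site) × Finset (Sym2 Site) :=
  (((z.kfin.toFinset.biUnion fun e => (z.kfin' e).toFinset.image
      fun p => (e, p.1, p.2, z.k e p.1 p.2))), z.τfin.toFinset)

theorem mem_code {z : St Site} {e : Site} {j i : ℕ} {w : Site} :
    (e, j, i, w) ∈ (code z).1 ↔ z.k e j i ≠ e ∧ z.k e j i = w := by
  classical
  simp only [code, Finset.mem_biUnion, Set.Finite.mem_toFinset, Finset.mem_image, supp,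
    Set.mem_ofPred_eq, Prod.mk.injEq]
  constructor
  · rintro ⟨e', h1, ⟨j', i'⟩, h2, rfl, rfl, rfl, rfl⟩
    exact ⟨h2, rfl⟩
  · rintro ⟨h1, h2⟩
    refine ⟨e, ?_, (j, i), h1, rfl, rfl, rfl, h2⟩
    intro h3
    apply h1
    rw [h3]; rfl

theorem code_injective : Function.Injective code := by
  classical
  intro z z' h
  have h1 : ∀ e j i w, (z.k e j i ≠ e ∧ z.k e j i = w) ↔ (z'.k e j i ≠ e ∧ z'.k e j i = w) := by
    intro e j i w
    rw [← mem_code, ← mem_code, h]
  apply St.ext
  · funext e j i
    by_cases h2 : z.k e j i = e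
    · by_contra h3
      have h4 : z'.k e j i ≠ e := fun h5 => h3 (h2.trans h5.symm)
      exact ((h1 e j i (z'.k e j i)).2 ⟨h4, rfl⟩).1 h2
    · exact ((h1 e j i (z.k e j i)).1 ⟨h2, rfl⟩).2.symm
  · have h2 : z.τfin.toFinset = z'.τfin.toFinset := congrArg Prod.snd h
    ext y
    rw [← z.τfin.mem_toFinset, ← z'.τfin.mem_toFinset, h2]

theorem mk_St_le : Cardinal.mk (St Site) ≤ Cardinal.continuum := by
  refine (Cardinal.mk_le_of_injective code_injective).trans ?_
  rw [Cardinal.mk_prod, Cardinal.lift_id, Cardinal.lift_id]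
  have h1 : Cardinal.mk (Site × ℕ × ℕ × Site) ≤ Cardinal.continuum := by
    simp only [Cardinal.mk_prod, Cardinal.lift_id, Cardinal.mk_nat]
    calc Cardinal.mk Site * (Cardinal.aleph0 * (Cardinal.aleph0 * Cardinal.mk Site))
        ≤ Cardinal.continuum * (Cardinal.aleph0 * (Cardinal.aleph0 * Cardinal.continuum)) := by
          gcongr <;> exact mk_Site_le
      _ = Cardinal.continuum := by
          rw [Cardinal.aleph0_mul_continuum, Cardinal.aleph0_mul_continuum,
            Cardinal.continuum_mul_self]
  have h2 : Cardinal.mk (Sym2 Site) ≤ Cardinal.continuum := by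
    refine (Cardinal.mk_le_of_surjective (f := fun p : Site × Site => s(p.1, p.2)) ?_).trans ?_
    · intro y
      induction y using Sym2.ind with
      | _ a b => exact ⟨(a, b), rfl⟩
    · rw [Cardinal.mk_prod, Cardinal.lift_id]
      calc Cardinal.mk Site * Cardinal.mk Site
          ≤ Cardinal.continuum * Cardinal.continuum := by gcongr <;> exact mk_Site_le
        _ = Cardinal.continuum := Cardinal.continuum_mul_self
  calc Cardinal.mk (Finset (Site × ℕ × ℕ × Site)) * Cardinal.mk (Finset (Sym2 Site))
      ≤ Cardinal.continuum * Cardinal.continuum := by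
        gcongr
        · exact mk_finset_le h1
        · exact mk_finset_le h2
    _ = Cardinal.continuum := Cardinal.continuum_mul_self

/-! ### Products with discrete groups -/

section

universe u

variable {G : Type u} [TopologicalSpace G] [DiscreteTopology G] [AddGroup G]

/-- The rectification of the product of the space and a discrete group. -/
noncomputable def phiG : ((St Site × G) × (St Site × G)) ≃ₜ ((St Site × G) × (St Site × G)) where
  toFun p := (p.1, (L p.1.1 (Th p.1.1 p.2.1), -p.1.2 + p.2.2))
  invFun p := (p.1, (Th p.1.1 (L p.1.1 p.2.1), p.1.2 + p.2.2))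
  left_inv p := by simp only [L_L, Th_Th, add_neg_cancel_left]
  right_inv p := by simp only [L_L, Th_Th, neg_add_cancel_left]
  continuous_toFun := by
    refine continuous_fst.prodMk (Continuous.prodMk ?_ ?_)
    · have h1 : Continuous fun p : (St Site × G) × (St Site × G) => p.1.1 :=
        continuous_fst.comp continuous_fst
      have h2 : Continuous fun p : (St Site × G) × (St Site × G) => p.2.1 :=
        continuous_fst.comp continuous_snd
      exact continuous_L.comp (h1.prodMk (continuous_Th.comp (h1.prodMk h2)))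
    · have h1 : Continuous fun p : (St Site × G) × (St Site × G) => (p.1.2, p.2.2) :=
        (continuous_snd.comp continuous_fst).prodMk (continuous_snd.comp continuous_snd)
      exact (continuous_of_discreteTopology (f := fun q : G × G => -q.1 + q.2)).comp h1
  continuous_invFun := by
    refine continuous_fst.prodMk (Continuous.prodMk ?_ ?_)
    · have h1 : Continuous fun p : (St Site × G) × (St Site × G) => p.1.1 :=
        continuous_fst.comp continuous_fst
      have h2 : Continuous fun p : (St Site × G) × (St Site × G) => p.2.1 :=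
        continuous_fst.comp continuous_snd
      exact continuous_Th.comp (h1.prodMk (continuous_L.comp (h1.prodMk h2)))
    · have h1 : Continuous fun p : (St Site × G) × (St Site × G) => (p.1.2, p.2.2) :=
        (continuous_snd.comp continuous_fst).prodMk (continuous_snd.comp continuous_snd)
      exact (continuous_of_discreteTopology (f := fun q : G × G => q.1 + q.2)).comp h1

theorem phiG_fst (p : (St Site × G) × (St Site × G)) : (phiG p).1 = p.1 := rfl

theorem phiG_diag (x : St Site × G) : phiG (x, x) = (x, (St.zero, 0)) := by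
  show (x, (L x.1 (Th x.1 x.1), -x.2 + x.2)) = (x, (St.zero, 0))
  rw [L_Th_self, neg_add_cancel]

theorem exists_clopenG {x y : St Site × G} (hne : x ≠ y) :
    ∃ U : Set (St Site × G), IsClopen U ∧ x ∈ U ∧ y ∉ U := by
  by_cases h : x.1 = y.1
  · have h2 : x.2 ≠ y.2 := fun h2 => hne (Prod.ext h h2)
    refine ⟨Prod.snd ⁻¹' {x.2}, (isClopen_discrete {x.2}).preimage continuous_snd, rfl, ?_⟩
    intro h3
    exact h2 (Eq.symm h3)
  · obtain ⟨U, hU, h1, h2⟩ := exists_clopen h
    exact ⟨Prod.fst ⁻¹' U, hU.preimage continuous_fst, h1, h2⟩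

theorem gluedG (x : St Site × G) : ∃ F : Set (St Site × G), IsClosed F ∧ x ∉ F ∧
    ∀ f : St Site × G → ℝ, Continuous f → ∀ c : ℝ, (∀ y ∈ F, f y = c) → f x = c := by
  obtain ⟨F, hF, hx, h⟩ := glued x.1
  refine ⟨Prod.fst ⁻¹' F, hF.preimage continuous_fst, hx, fun f hf c hc => ?_⟩
  have h1 := h (fun z => f (z, x.2)) (hf.comp (continuous_id.prodMk continuous_const)) c
    (fun y hy => hc _ hy)
  exact h1

end

/-- A group of any infinite cardinality. -/
theorem mk_group (α : Type*) [Infinite α] :
    Cardinal.mk (α →₀ ZMod 2) = Cardinal.mk α := by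
  rw [Cardinal.mk_finsupp_lift_of_infinite, Cardinal.lift_uzero, max_eq_left]
  have h1 : Cardinal.aleph0 ≤ Cardinal.mk α := Cardinal.infinite_iff.1 inferInstance
  refine le_trans ?_ h1
  rw [Cardinal.lift_le_aleph0]
  exact (Cardinal.lt_aleph0_of_finite (ZMod 2)).le

theorem mk_prod_St (α : Type*) (hα : Cardinal.continuum ≤ Cardinal.mk α) :
    Cardinal.mk (St Site × (α →₀ ZMod 2)) = Cardinal.mk α := by
  have h0 : Cardinal.aleph0 ≤ Cardinal.mk α := Cardinal.aleph0_le_continuum.trans hα
  haveI : Infinite α := Cardinal.infinite_iff.2 h0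
  rw [Cardinal.mk_prod, mk_group, Cardinal.lift_uzero]
  apply Cardinal.mul_eq_right h0
  · have h1 := Cardinal.lift_le.2 mk_St_le
    rw [Cardinal.lift_continuum] at h1
    exact h1.trans hα
  · rw [Ne, Cardinal.lift_eq_zero, Cardinal.mk_eq_zero_iff]
    exact not_isEmpty_of_nonempty (h := ⟨St.zero⟩)

end Pool.Agent.H85.Rect
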