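import Pool.Agent.H85.Rect.Baire

set_option autoImplicit false

/-!
# The space is not completely regular
-/

namespace Pool.Agent.H85.Rect

open Filter PiNat

/-- the configuration with one particle at a site -/
noncomputable def pt (u : Site) : St Site := one u u (N_self u)

theorem near_bond {G : St Site → ℝ} (hG : Continuous G) (u : Site) {ε : ℝ} (hε : 0 < ε) :
    ∃ γ : ℕ, ∀ (v : Site) (h : Geo.adj u v), γ ≤ firstDiff u.p v.p →
      |G (one u v (Or.inr h)) - G (pt u)| < ε := by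
  have h1 : G ⁻¹' Metric.ball (G (pt u)) ε ∈ nhds (pt u) :=
    hG.continuousAt (Metric.ball_mem_nhds _ hε)
  obtain ⟨⟨n, g⟩, _, h2⟩ := (nhds_basis (pt u)).mem_iff.1 h1
  refine ⟨g u, fun v h hg => ?_⟩
  have h3 := h2 (R_hop (n := n) h hg)
  simpa [Real.dist_eq] using h3

theorem descent {G : St Site → ℝ} (hG : Continuous G)
    (h0 : ∀ u : Site, u.lv = 0 → G (pt u) = 1) (k : ℕ) :
    ∃ x m, ∀ u : Site, u.lv = k → u.p ∈ cylinder x m → 1 / 2 + (1 / 2 : ℝ) ^ (k + 1) ≤ G (pt u) := by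
  classical
  induction k with
  | zero =>
    refine ⟨fun _ => 0, 0, fun u hu _ => ?_⟩
    rw [h0 u hu]; norm_num
  | succ k ih =>
    obtain ⟨x, m, hx⟩ := ih
    have hε : (0 : ℝ) < (1 / 2) ^ (k + 2) := by positivity
    choose γ hγ using fun u : Site => near_bond hG u hε
    obtain ⟨N, x1, m1, hm, hx1, hN⟩ := baire_step k x m
      (fun t => if h : t ∈ A k then γ ⟨k, t, h⟩ else 0)
    refine ⟨x1, m1, fun v hv hvp => ?_⟩
    by_contra hcon
    push Not at hcon
    set β : ℝ := 1 / 2 + (1 / 2 : ℝ) ^ (k + 1 + 1) with hβ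
    obtain ⟨γ', hγ'⟩ := near_bond hG v (sub_pos.2 hcon)
    obtain ⟨t, ht, htv, htN⟩ := hN v.p hvp (max (max N γ') m1)
    rw [dif_pos ht] at htN
    let u : Site := ⟨k, t, ht⟩
    have huv : Geo.adj u v := Or.inl (by show v.lv = k + 1; exact hv)
    have hne : t ≠ v.p := adj_p_ne huv
    have hfd : max (max N γ') m1 ≤ firstDiff t v.p :=
      (mem_cylinder_iff_le_firstDiff hne _).1 htv
    have hux : u.p ∈ cylinder x m := by
      rw [mem_cylinder_iff] at htv hvp hx1 ⊢
      intro i hi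
      have h1 : i < m1 := lt_of_lt_of_le hi hm
      show t i = x i
      rw [htv i (lt_of_lt_of_le h1 (le_max_right _ _)), hvp i h1, hx1 i hi]
    have h1 := hx u rfl hux
    have h2 := hγ u v huv (htN.trans ((le_max_left N γ').trans ((le_max_left _ _).trans hfd)))
    have h3 := hγ' u (Geo.adj_symm huv) (by
      rw [firstDiff_comm]
      exact (le_max_right N γ').trans ((le_max_left _ _).trans hfd))
    have h4 : one v u (Or.inr (Geo.adj_symm huv)) = one u v (Or.inr huv) :=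
      one_symm u v (Or.inr huv)
    rw [h4] at h3
    rw [abs_lt] at h2 h3
    have h5 : (1 / 2 : ℝ) ^ (k + 1) = 2 * (1 / 2) ^ (k + 2) := by ring
    have h6 : (1 / 2 : ℝ) ^ (k + 1 + 1) = (1 / 2) ^ (k + 2) := rfl
    rw [h5] at h1
    rw [hβ, h6] at h3
    linarith [h2.1, h3.2]

theorem not_completelyRegular : ¬ CompletelyRegularSpace (St Site) := by
  intro hcr
  have hz : (St.zero : St Site) ∉ {z : St Site | ∃ u, Geo.lev u = 0 ∧ s(u, u) ∈ z.τ} := by
    rintro ⟨u, _, hu⟩
    exact absurd hu (Set.notMem_empty _)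
  obtain ⟨F, hF, hF0, hF1⟩ := hcr.completely_regular _ _ isClosed_level_zero hz
  let G : St Site → ℝ := fun z => (F z : ℝ)
  have hG : Continuous G := continuous_subtype_val.comp hF
  have hG1 : ∀ u : Site, u.lv = 0 → G (pt u) = 1 := by
    intro u hu
    have h1 : F (pt u) = 1 := hF1 ⟨u, hu, rfl⟩
    show (F (pt u) : ℝ) = 1
    rw [h1]; rfl
  have hG0 : G St.zero = 0 := by
    show (F St.zero : ℝ) = 0
    rw [hF0]; rfl
  have h1 : G ⁻¹' Metric.ball (G St.zero) (1 / 2) ∈ nhds (St.zero : St Site) :=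
    hG.continuousAt (Metric.ball_mem_nhds _ (by norm_num))
  obtain ⟨⟨n, g⟩, _, h2⟩ := (nhds_basis (St.zero : St Site)).mem_iff.1 h1
  obtain ⟨x, m, hx⟩ := descent hG hG1 (n + 1)
  obtain ⟨t, ht, htx⟩ := exists_mem_A (n + 1) x m
  let u : Site := ⟨n + 1, t, ht⟩
  have h3 := hx u rfl htx
  have h4 : G (pt u) ∈ Metric.ball (G St.zero) (1 / 2) :=
    h2 (R_high (show n < Geo.lev u from Nat.lt_succ_self n))
  rw [hG0, Metric.mem_ball, Real.dist_eq, sub_zero, abs_lt] at h4
  have h5 : (0 : ℝ) < (1 / 2) ^ (n + 1 + 1) := by positivity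
  linarith [h4.2]

theorem not_T35 : ¬ T35Space (St Site) := fun h => not_completelyRegular h.toCompletelyRegularSpace

end Pool.Agent.H85.Rect
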