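import Mathlib

set_option autoImplicit false

/-!
# Abstract geometry of sites, and the hidden arrays

A *geometry* consists of sites with levels, an adjacency relation between sites of consecutive
levels, and a scale `sc u w : ℕ` of each pair; the only axiom on scales is that two distinct sites
have no common neighbour which is close to both of them.
-/

namespace Pool.Agent.H85.Rect

/-- Sites with levels, adjacency and scales. -/
class Geo (S : Type) where
  /-- the level of a site -/
  lev : S → ℕ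
  /-- adjacency of sites -/
  adj : S → S → Prop
  /-- the scale of a pair of sites (large scale means close together) -/
  sc : S → S → ℕ
  /-- a separation bound for pairs of sites -/
  sep : S → S → ℕ
  adj_symm : ∀ {u w : S}, adj u w → adj w u
  adj_lev : ∀ {u w : S}, adj u w → lev w = lev u + 1 ∨ lev u = lev w + 1
  sc_symm : ∀ u w : S, sc u w = sc w u
  sep_spec : ∀ {u v w : S}, u ≠ v → adj u w → adj v w → sc u w < sep u v ∨ sc v w < sep u v

open Geo

variable {S : Type} [Geo S]

open Classical in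
/-- The scale, with value `⊤` on the diagonal. -/
noncomputable def D (e w : S) : ℕ∞ := if e = w then ⊤ else (sc e w : ℕ∞)

/-- `w` is a label at the site `e`: either `e` itself or a neighbour of it. -/
def N (e w : S) : Prop := w = e ∨ adj e w

theorem adj_ne {u w : S} (h : adj u w) : u ≠ w := by
  rintro rfl
  rcases adj_lev h with h | h <;> omega

theorem D_self (e : S) : D e e = ⊤ := by simp [D]

theorem D_ne {e w : S} (h : e ≠ w) : D e w = (sc e w : ℕ∞) := by simp [D, h]

theorem D_lt_top {e w : S} (h : e ≠ w) : D e w < ⊤ := by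
  rw [D_ne h]; exact ENat.natCast_lt_top _

theorem D_eq_top {e w : S} : D e w = ⊤ ↔ e = w := by
  constructor
  · intro h
    by_contra hne
    exact (D_lt_top hne).ne h
  · rintro rfl; exact D_self _

theorem D_symm (e w : S) : D e w = D w e := by
  by_cases h : e = w
  · subst h; rfl
  · rw [D_ne h, D_ne (Ne.symm h), sc_symm]

theorem coe_ne_D_self (e : S) (j : ℕ) : (j : ℕ∞) ≠ D e e := by
  rw [D_self]; exact ENat.natCast_ne_top j

theorem ne_of_coe_eq_D {e w : S} {j : ℕ} (h : (j : ℕ∞) = D e w) : e ≠ w := by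
  rintro rfl
  exact coe_ne_D_self _ _ h

theorem N_self (e : S) : N e e := Or.inl rfl

theorem N_symm {e w : S} (h : N e w) : N w e := by
  rcases h with rfl | h
  · exact N_self _
  · exact Or.inr (adj_symm h)

theorem N_adj {e w : S} (h : N e w) (hne : w ≠ e) : adj e w := h.resolve_left hne

theorem N_lev {e w : S} (h : N e w) : lev w ≤ lev e + 1 ∧ lev e ≤ lev w + 1 := by
  rcases h with rfl | h
  · omega
  · rcases adj_lev h with h | h <;> omega

/-! ### Rows -/

/-- prepend an element to a sequence -/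
def cons (x : S) (r : ℕ → S) : ℕ → S
  | 0 => x
  | (i + 1) => r i

/-- the tail of a sequence -/
def tl (r : ℕ → S) : ℕ → S := fun i => r (i + 1)

omit [Geo S] in
@[simp] theorem cons_zero (x : S) (r : ℕ → S) : cons x r 0 = x := rfl
omit [Geo S] in
@[simp] theorem cons_succ (x : S) (r : ℕ → S) (i : ℕ) : cons x r (i + 1) = r i := rfl
omit [Geo S] in
@[simp] theorem tl_cons (x : S) (r : ℕ → S) : tl (cons x r) = r := rfl
omit [Geo S] in
@[simp] theorem tl_apply (r : ℕ → S) (i : ℕ) : tl r i = r (i + 1) := rfl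
omit [Geo S] in
@[simp] theorem cons_tl (r : ℕ → S) : cons (r 0) (tl r) = r := by
  funext i; cases i <;> rfl

omit [Geo S] in
theorem cons_inj {x y : S} {r s : ℕ → S} (h : cons x r = cons y s) : x = y ∧ r = s :=
  ⟨congrFun h 0, by simpa using congrArg tl h⟩

/-! ### Arrays -/

/-- the head put by the label `w` on the row `j` -/
noncomputable def hd (e w : S) (j : ℕ) : S := open Classical in if (j : ℕ∞) = D e w then w else e

theorem hd_eq {e w : S} {j : ℕ} (h : (j : ℕ∞) = D e w) : hd e w j = w := by simp [hd, h]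

theorem hd_ne {e w : S} {j : ℕ} (h : (j : ℕ∞) ≠ D e w) : hd e w j = e := by simp [hd, h]

/-- Push the label `w` on an array. -/
noncomputable def push (e w : S) (a : ℕ → ℕ → S) : ℕ → ℕ → S := fun j =>
  open Classical in if (j : ℕ∞) ≤ D e w then cons (hd e w j) (a j) else a j

/-- Remove the label `w` from the top of an array. -/
noncomputable def rest (e w : S) (a : ℕ → ℕ → S) : ℕ → ℕ → S := fun j =>
  open Classical in if (j : ℕ∞) ≤ D e w then tl (a j) else a j

open Classical in
/-- Twist the entry `(D e w, 0)` by the transposition of `e` and `w`. -/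
noncomputable def tw (e w : S) (a : ℕ → ℕ → S) : ℕ → ℕ → S := fun j =>
  if (j : ℕ∞) = D e w then cons (Equiv.swap e w (a j 0)) (tl (a j)) else a j

/-- `w` is the label on the top of the array `a`. -/
def IsTop (e w : S) (a : ℕ → ℕ → S) : Prop := ∀ j : ℕ, (j : ℕ∞) ≤ D e w → a j 0 = hd e w j

/-- Valid arrays at the site `e`. -/
def Valid (e : S) (a : ℕ → ℕ → S) : Prop :=
  ∀ j i, a j i = e ∨ (adj e (a j i) ∧ D e (a j i) = (j : ℕ∞))

/-- The empty array at the site `e`. -/
def emp (e : S) : ℕ → ℕ → S := fun _ _ => e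

/-- Arrays which are empty on the rows up to the scale of the label `w`. -/
def Emp (e w : S) (a : ℕ → ℕ → S) : Prop := ∀ j : ℕ, (j : ℕ∞) ≤ D e w → ∀ i, a j i = e

theorem rest_push (e w : S) (a : ℕ → ℕ → S) : rest e w (push e w a) = a := by
  funext j
  unfold rest push
  by_cases h : (j : ℕ∞) ≤ D e w
  · simp [h]
  · simp [h]

theorem push_rest {e w : S} {a : ℕ → ℕ → S} (h : IsTop e w a) : push e w (rest e w a) = a := by
  funext j
  unfold rest push
  by_cases hj : (j : ℕ∞) ≤ D e w
  · simp only [hj, if_true]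
    rw [← h j hj]
    exact cons_tl _
  · simp [hj]

theorem isTop_push (e w : S) (a : ℕ → ℕ → S) : IsTop e w (push e w a) := by
  intro j hj
  simp [push, hj]

theorem push_inj {e w : S} {a b : ℕ → ℕ → S} (h : push e w a = push e w b) : a = b := by
  rw [← rest_push e w a, h, rest_push]

theorem tw_tw (e w : S) (a : ℕ → ℕ → S) : tw e w (tw e w a) = a := by
  funext j
  unfold tw
  by_cases h : (j : ℕ∞) = D e w
  · simp [h]
  · simp [h]

theorem tw_self (e : S) (a : ℕ → ℕ → S) : tw e e a = a := by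
  funext j
  unfold tw
  rw [if_neg (coe_ne_D_self e j)]

theorem tw_of_Emp {e w : S} {a : ℕ → ℕ → S} (h : Emp e w a) : tw e w a = push e w a := by
  funext j
  unfold tw push
  by_cases hj : (j : ℕ∞) = D e w
  · have h0 : a j = fun _ => e := funext fun i => h j hj.le i
    rw [if_pos hj, if_pos hj.le, hd_eq hj, h0]
    funext i
    cases i <;> simp
  · rw [if_neg hj]
    by_cases hj2 : (j : ℕ∞) ≤ D e w
    · have h0 : a j = fun _ => e := funext fun i => h j hj2 i
      rw [if_pos hj2, hd_ne hj, h0]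
      funext i
      cases i <;> simp
    · rw [if_neg hj2]

theorem isTop_unique {e w w' : S} {a : ℕ → ℕ → S} (h : IsTop e w a) (h' : IsTop e w' a) :
    w = w' := by
  wlog hle : D e w ≤ D e w' generalizing w w' with H
  · exact (H h' h (le_of_not_ge hle)).symm
  by_cases hw : e = w
  · subst hw
    rw [D_self] at hle
    exact D_eq_top.1 (top_le_iff.1 hle)
  · have h1 : ((sc e w : ℕ) : ℕ∞) = D e w := (D_ne hw).symm
    have h2 := h (sc e w) h1.le
    have h3 := h' (sc e w) (h1.le.trans hle)
    rw [hd_eq h1] at h2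
    by_cases h4 : ((sc e w : ℕ) : ℕ∞) = D e w'
    · rw [hd_eq h4] at h3
      rw [← h2, h3]
    · rw [hd_ne h4] at h3
      exact absurd (h3.symm.trans h2) hw

theorem exists_isTop {e : S} {a : ℕ → ℕ → S} (h : Valid e a) : ∃ w, N e w ∧ IsTop e w a := by
  classical
  by_cases hex : ∃ j, a j 0 ≠ e
  · have h1 := Nat.find_spec hex
    have h2 : ∀ j < Nat.find hex, a j 0 = e := fun j hj => by
      have := Nat.find_min hex hj
      simpa using this
    rcases h (Nat.find hex) 0 with h3 | ⟨h3, h4⟩
    · exact absurd h3 h1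
    · refine ⟨a (Nat.find hex) 0, Or.inr h3, fun j hj => ?_⟩
      rw [h4] at hj
      have hj' : j ≤ Nat.find hex := by exact_mod_cast hj
      rcases hj'.lt_or_eq with h5 | h5
      · rw [h2 j h5, hd_ne]
        rw [h4]
        exact_mod_cast h5.ne
      · rw [hd_eq (by rw [h4, h5])]
        rw [h5]
  · push Not at hex
    refine ⟨e, N_self e, fun j _ => ?_⟩
    rw [hex j, hd_ne (coe_ne_D_self e j)]

theorem isTop_emp (e : S) : IsTop e e (emp e) := by
  intro j _
  rw [hd_ne (coe_ne_D_self e j)]; rfl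

theorem push_self_emp (e : S) : push e e (emp e) = emp e := by
  funext j
  unfold push
  rw [if_pos (by rw [D_self]; exact le_top), hd_ne (coe_ne_D_self e j)]
  funext i
  cases i <;> rfl

theorem Emp_emp (e w : S) : Emp e w (emp e) := fun _ _ _ => rfl

/-! ### Validity -/

theorem valid_emp (e : S) : Valid e (emp e) := fun _ _ => Or.inl rfl

theorem hd_valid {e w : S} (h : N e w) (j : ℕ) :
    hd e w j = e ∨ (adj e (hd e w j) ∧ D e (hd e w j) = (j : ℕ∞)) := by
  by_cases hj : (j : ℕ∞) = D e w
  · rw [hd_eq hj]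
    exact Or.inr ⟨N_adj h (ne_of_coe_eq_D hj).symm, hj.symm⟩
  · rw [hd_ne hj]
    exact Or.inl rfl

theorem valid_push {e w : S} {a : ℕ → ℕ → S} (hw : N e w) (h : Valid e a) :
    Valid e (push e w a) := by
  intro j i
  unfold push
  by_cases hj : (j : ℕ∞) ≤ D e w
  · rw [if_pos hj]
    cases i with
    | zero => exact hd_valid hw j
    | succ i => exact h j i
  · rw [if_neg hj]; exact h j i

theorem valid_rest {e w : S} {a : ℕ → ℕ → S} (h : Valid e a) : Valid e (rest e w a) := by
  intro j i
  unfold rest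
  by_cases hj : (j : ℕ∞) ≤ D e w
  · rw [if_pos hj]; exact h j (i + 1)
  · rw [if_neg hj]; exact h j i

open Classical in
theorem valid_swap {e w x : S} {j : ℕ} (hw : w = e ∨ (adj e w ∧ D e w = (j : ℕ∞)))
    (hx : x = e ∨ (adj e x ∧ D e x = (j : ℕ∞))) :
    Equiv.swap e w x = e ∨ (adj e (Equiv.swap e w x) ∧ D e (Equiv.swap e w x) = (j : ℕ∞)) := by
  by_cases h1 : x = e
  · rw [h1, Equiv.swap_apply_left]; exact hw
  · by_cases h2 : x = w
    · rw [h2, Equiv.swap_apply_right]; exact Or.inl rfl
    · rw [Equiv.swap_apply_of_ne_of_ne h1 h2]; exact hx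

theorem valid_tw {e w : S} {a : ℕ → ℕ → S} (hw : N e w) (h : Valid e a) :
    Valid e (tw e w a) := by
  intro j i
  unfold tw
  by_cases hj : (j : ℕ∞) = D e w
  · rw [if_pos hj]
    cases i with
    | zero =>
      exact valid_swap (Or.inr ⟨N_adj hw (ne_of_coe_eq_D hj).symm, hj.symm⟩) (h j 0)
    | succ i => exact h j (i + 1)
  · rw [if_neg hj]; exact h j i

/-! ### Closeness -/

/-- Two arrays agree on the rows below `g`. -/
def Eqg (g : ℕ) (a a' : ℕ → ℕ → S) : Prop := ∀ j : ℕ, j < g → a j = a' j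

/-- Two labels are equal or both of scale at least `g`. -/
def Cl (g : ℕ) (e w w' : S) : Prop := w = w' ∨ ((g : ℕ∞) ≤ D e w ∧ (g : ℕ∞) ≤ D e w')

omit [Geo S] in
theorem Eqg.refl (g : ℕ) (a : ℕ → ℕ → S) : Eqg g a a := fun _ _ => rfl

omit [Geo S] in
theorem Eqg.symm {g : ℕ} {a a' : ℕ → ℕ → S} (h : Eqg g a a') : Eqg g a' a :=
  fun j hj => (h j hj).symm

omit [Geo S] in
theorem Eqg.mono {g g' : ℕ} (hg : g ≤ g') {a a' : ℕ → ℕ → S} (h : Eqg g' a a') : Eqg g a a' :=
  fun j hj => h j (hj.trans_le hg)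

omit [Geo S] in
theorem Eqg.trans {g : ℕ} {a b c : ℕ → ℕ → S} (h : Eqg g a b) (h' : Eqg g b c) : Eqg g a c :=
  fun j hj => (h j hj).trans (h' j hj)

theorem Cl.symm {g : ℕ} {e w w' : S} (h : Cl g e w w') : Cl g e w' w := by
  rcases h with h | ⟨h1, h2⟩
  · exact Or.inl h.symm
  · exact Or.inr ⟨h2, h1⟩

theorem Cl_refl (g : ℕ) (e w : S) : Cl g e w w := Or.inl rfl

theorem Cl_self {g : ℕ} {e w : S} (h : (g : ℕ∞) ≤ D e w) : Cl g e e w :=
  Or.inr ⟨by rw [D_self]; exact le_top, h⟩

theorem coe_lt_of_lt_of_le {j g : ℕ} {x : ℕ∞} (hj : j < g) (h : (g : ℕ∞) ≤ x) : (j : ℕ∞) < x :=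
  lt_of_lt_of_le (by exact_mod_cast hj) h

theorem push_close {g : ℕ} {e w w' : S} {a a' : ℕ → ℕ → S} (hw : Cl g e w w')
    (h : Eqg g a a') : Eqg g (push e w a) (push e w' a') := by
  intro j hj
  rcases hw with rfl | ⟨h1, h2⟩
  · unfold push; rw [h j hj]
  · have h3 := coe_lt_of_lt_of_le hj h1
    have h4 := coe_lt_of_lt_of_le hj h2
    unfold push
    rw [if_pos h3.le, if_pos h4.le, hd_ne h3.ne, hd_ne h4.ne, h j hj]

theorem rest_close {g : ℕ} {e w w' : S} {a a' : ℕ → ℕ → S} (hw : Cl g e w w')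
    (h : Eqg g a a') : Eqg g (rest e w a) (rest e w' a') := by
  intro j hj
  rcases hw with rfl | ⟨h1, h2⟩
  · unfold rest; rw [h j hj]
  · have h3 := coe_lt_of_lt_of_le hj h1
    have h4 := coe_lt_of_lt_of_le hj h2
    unfold rest
    rw [if_pos h3.le, if_pos h4.le, h j hj]

theorem tw_close {g : ℕ} {e w w' : S} {a a' : ℕ → ℕ → S} (hw : Cl g e w w')
    (h : Eqg g a a') : Eqg g (tw e w a) (tw e w' a') := by
  intro j hj
  rcases hw with rfl | ⟨h1, h2⟩
  · unfold tw; rw [h j hj]
  · have h3 := coe_lt_of_lt_of_le hj h1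
    have h4 := coe_lt_of_lt_of_le hj h2
    unfold tw
    rw [if_neg h3.ne, if_neg h4.ne, h j hj]

theorem top_close {g : ℕ} {e w w' : S} {a a' : ℕ → ℕ → S} (h : Eqg g a a')
    (hw : IsTop e w a) (hw' : IsTop e w' a') : Cl g e w w' := by
  have key : ∀ {w w' : S} {a a' : ℕ → ℕ → S}, Eqg g a a' → IsTop e w a → IsTop e w' a' →
      D e w < (g : ℕ∞) → w = w' := by
    intro w w' a a' h hw hw' hlt
    apply isTop_unique (a := a') _ hw'
    intro j hj
    have hj' : j < g := by
      have := lt_of_le_of_lt hj hlt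
      exact_mod_cast this
    rw [← h j hj']
    exact hw j hj
  by_cases h1 : D e w < (g : ℕ∞)
  · exact Or.inl (key h hw hw' h1)
  · by_cases h2 : D e w' < (g : ℕ∞)
    · exact Or.inl (key h.symm hw' hw h2).symm
    · exact Or.inr ⟨le_of_not_gt h1, le_of_not_gt h2⟩

theorem Emp_close {g : ℕ} {e w : S} {a a' : ℕ → ℕ → S} (h : Eqg g a a')
    (hw : D e w < (g : ℕ∞)) : Emp e w a ↔ Emp e w a' := by
  constructor
  · intro h1 j hj i
    have : j < g := by exact_mod_cast lt_of_le_of_lt hj hw
    rw [← h j this]; exact h1 j hj i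
  · intro h1 j hj i
    have : j < g := by exact_mod_cast lt_of_le_of_lt hj hw
    rw [h j this]; exact h1 j hj i

/-! ### Finite supports -/

/-- the support of an array -/
def supp (e : S) (a : ℕ → ℕ → S) : Set (ℕ × ℕ) := {p | a p.1 p.2 ≠ e}

omit [Geo S] in
theorem supp_emp (e : S) : (supp e (emp e)) = ∅ := by
  ext p; simp [supp, emp]

theorem finite_push {e w : S} {a : ℕ → ℕ → S} (h : (supp e a).Finite) :
    (supp e (push e w a)).Finite := by
  classical
  apply ((h.image (fun p => (p.1, p.2 + 1))).union (h.union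
    (Set.finite_singleton (sc e w, 0)))).subset
  rintro ⟨j, i⟩ hp
  simp only [supp, Set.mem_ofPred_eq, push] at hp
  by_cases hj : (j : ℕ∞) ≤ D e w
  · rw [if_pos hj] at hp
    cases i with
    | zero =>
      right; right
      simp only [cons_zero] at hp
      by_cases hj2 : (j : ℕ∞) = D e w
      · have hne := ne_of_coe_eq_D hj2
        rw [D_ne hne] at hj2
        have : j = sc e w := by exact_mod_cast hj2
        simp [this]
      · rw [hd_ne hj2] at hp; exact absurd rfl hp
    | succ i =>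
      left
      exact ⟨(j, i), hp, rfl⟩
  · rw [if_neg hj] at hp
    right; left; exact hp

theorem finite_rest {e w : S} {a : ℕ → ℕ → S} (h : (supp e a).Finite) :
    (supp e (rest e w a)).Finite := by
  apply ((h.preimage (f := fun p : ℕ × ℕ => (p.1, p.2 + 1)) (by
    rintro ⟨a, b⟩ _ ⟨c, d⟩ _ h
    simp only [Prod.mk.injEq, Nat.add_right_cancel_iff] at h
    exact Prod.ext h.1 h.2)).union h).subset
  rintro ⟨j, i⟩ hp
  simp only [supp, Set.mem_ofPred_eq, rest] at hp
  by_cases hj : (j : ℕ∞) ≤ D e w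
  · rw [if_pos hj] at hp
    left; exact hp
  · rw [if_neg hj] at hp
    right; exact hp

theorem finite_tw {e w : S} {a : ℕ → ℕ → S} (h : (supp e a).Finite) :
    (supp e (tw e w a)).Finite := by
  apply (h.union (Set.finite_singleton (sc e w, 0))).subset
  rintro ⟨j, i⟩ hp
  simp only [supp, Set.mem_ofPred_eq, tw] at hp
  by_cases hj : (j : ℕ∞) = D e w
  · rw [if_pos hj] at hp
    cases i with
    | zero =>
      right
      have hne := ne_of_coe_eq_D hj
      rw [D_ne hne] at hj
      have : j = sc e w := by exact_mod_cast hj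
      simp [this]
    | succ i => left; exact hp
  · rw [if_neg hj] at hp
    left; exact hp

end Pool.Agent.H85.Rect
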