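import Pool.Agent.H85.Rect.Cont2

set_option autoImplicit false

/-!
# The space is `T3`
-/

namespace Pool.Agent.H85.Rect

open Geo

variable {S : Type} [Geo S]

theorem eq_of_R {z z' : St S} (H : ∀ n g, R n g z z') : z = z' := by
  obtain ⟨F1, hF1, h1, _⟩ := exists_support z
  obtain ⟨F2, hF2, h2, _⟩ := exists_support z'
  have hFf : (F1 ∪ F2).Finite := hF1.union hF2
  apply St.ext
  · funext u j
    exact (H (lev u) (fun _ => j + 1)).1 u le_rfl j (Nat.lt_succ_self j)
  · let g : S → ℕ := fun u => ∑ w ∈ hFf.toFinset, (sc u w + 1)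
    have hg : ∀ u, ∀ w ∈ F1 ∪ F2, sc u w < g u := by
      intro u w hw
      have h3 : sc u w + 1 ≤ ∑ w ∈ hFf.toFinset, (sc u w + 1) :=
        Finset.single_le_sum (f := fun w => sc u w + 1)
          (fun _ _ => Nat.zero_le _) (hFf.mem_toFinset.2 hw)
      exact h3
    let n0 : ℕ := ∑ w ∈ hFf.toFinset, (lev w + 1)
    have hn0 : ∀ w ∈ F1 ∪ F2, lev w < n0 := by
      intro w hw
      have h3 : lev w + 1 ≤ ∑ w ∈ hFf.toFinset, (lev w + 1) :=
        Finset.single_le_sum (f := fun w => lev w + 1)
          (fun _ _ => Nat.zero_le _) (hFf.mem_toFinset.2 hw)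
      exact h3
    ext y
    induction y using Sym2.ind with
    | _ a b =>
      obtain ⟨_, f, hf, hr⟩ := H (n0 + lev a + lev b) g
      have hfu : ∀ u, s(u, u) ∈ z.τ → f u = u := by
        intro u hu
        by_contra hne
        have huF : u ∈ F1 ∪ F2 := Or.inl (h1 _ _ hu)
        have hlu := hn0 u huF
        have hN := N_lev (hf u).1
        have h3 : s(u, f u) ∈ z'.τ := (hr u (f u) (by omega)).2 (Or.inr ⟨u, hu, rfl⟩)
        have h4 : f u ∈ F1 ∪ F2 := Or.inr (h2 _ _ (mem_swap h3))
        have h5 := (hf u).2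
        rw [D_ne (Ne.symm hne)] at h5
        have h6 : g u ≤ sc u (f u) := by exact_mod_cast h5
        have h7 := hg u _ h4
        omega
      rw [hr a b (by omega)]
      constructor
      · intro h
        by_cases hab : a = b
        · subst hab
          exact Or.inr ⟨a, h, by rw [hfu a h]⟩
        · exact Or.inl ⟨hab, h⟩
      · rintro (⟨_, h⟩ | ⟨u, h, h3⟩)
        · exact h
        · rw [hfu u h] at h3
          rw [← h3]; exact h

instance : T0Space (St S) := by
  rw [t0Space_iff_inseparable]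
  intro z z' h
  apply eq_of_R
  intro n g
  have h1 : {w | R n g z w} ∈ nhds z := (isOpen_R n g z).mem_nhds (R_refl n g z)
  rw [h.nhds_eq] at h1
  have h2 : z' ∈ {w | R n g z w} := mem_of_mem_nhds h1
  exact h2

theorem R_zero_iff {n : ℕ} {g : S → ℕ} {z : St S} :
    R n g St.zero z ↔ (∀ u, lev u ≤ n → Eqg (g u) (emp u) (z.k u)) ∧
      ∀ a b, lev a + lev b ≤ 2 * n → s(a, b) ∉ z.τ := by
  constructor
  · rintro ⟨h1, f, _, h2⟩
    refine ⟨h1, fun a b hab h => ?_⟩
    rcases (h2 a b hab).1 h with ⟨_, h3⟩ | ⟨u, h3, _⟩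
    · exact absurd h3 (Set.notMem_empty _)
    · exact absurd h3 (Set.notMem_empty _)
  · rintro ⟨h1, h2⟩
    refine ⟨h1, id, fun u => ⟨N_self u, by rw [id, D_self]; exact le_top⟩, fun a b hab => ?_⟩
    constructor
    · intro h; exact absurd h (h2 a b hab)
    · rintro (⟨_, h3⟩ | ⟨u, h3, _⟩)
      · exact absurd h3 (Set.notMem_empty _)
      · exact absurd h3 (Set.notMem_empty _)

theorem closure_R_zero (n : ℕ) (g : S → ℕ) :
    closure {z : St S | R (n + 1) g St.zero z} ⊆ {z | R n g St.zero z} := by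
  intro z hz
  rw [mem_closure_iff_nhds_basis (nhds_basis z)] at hz
  obtain ⟨z', h1, h2⟩ := hz (n + 1, g) trivial
  obtain ⟨h3, h4⟩ := R_zero_iff.1 h1
  obtain ⟨h5, f, hf, hr⟩ := h2
  refine R_zero_iff.2 ⟨fun u hu => (h3 u (by omega)).trans (h5 u (by simp; omega)).symm, ?_⟩
  intro a b hab h
  simp only at hr
  by_cases hne : a = b
  · subst hne
    have hN := N_lev (hf a).1
    exact h4 a (f a) (by omega) ((hr a (f a) (by omega)).2 (Or.inr ⟨a, h, rfl⟩))
  · exact h4 a b (by omega) ((hr a b (by omega)).2 (Or.inl ⟨hne, h⟩))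

/-- Translation moving `x` to the empty configuration. -/
noncomputable def trans (x : St S) : St S ≃ₜ St S where
  toFun y := L x (Th x y)
  invFun y := Th x (L x y)
  left_inv y := by simp only [L_L, Th_Th]
  right_inv y := by simp only [L_L, Th_Th]
  continuous_toFun :=
    continuous_L.comp (continuous_const.prodMk
      (continuous_Th.comp (continuous_const.prodMk continuous_id)))
  continuous_invFun :=
    continuous_Th.comp (continuous_const.prodMk
      (continuous_L.comp (continuous_const.prodMk continuous_id)))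

theorem trans_self (x : St S) : trans x x = St.zero := L_Th_self x

instance : RegularSpace (St S) := by
  apply RegularSpace.of_exists_mem_nhds_isClosed_subset
  intro x s hs
  have h1 : (trans x).symm ⁻¹' s ∈ nhds (St.zero : St S) := by
    apply (trans x).symm.continuous.continuousAt
    have : (trans x).symm St.zero = x := by
      rw [← trans_self x, Homeomorph.symm_apply_apply]
    rw [this]; exact hs
  obtain ⟨⟨n, g⟩, _, h2⟩ := (nhds_basis (St.zero : St S)).mem_iff.1 h1
  have h3 : closure {z : St S | R (n + 1) g St.zero z} ∈ nhds (St.zero : St S) :=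
    Filter.mem_of_superset ((isOpen_R (n + 1) g St.zero).mem_nhds (R_refl _ _ _)) subset_closure
  refine ⟨trans x ⁻¹' closure {z : St S | R (n + 1) g St.zero z}, ?_,
    isClosed_closure.preimage (trans x).continuous, ?_⟩
  · apply (trans x).continuous.continuousAt
    rw [trans_self]; exact h3
  · intro y hy
    have h4 := h2 (closure_R_zero n g hy)
    simpa using h4

instance : T3Space (St S) where

/-! ### One-particle configurations -/

/-- the configuration with a single particle -/
def one (u v : S) (h : N u v) : St S where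
  k := emp
  τ := {s(u, v)}
  kval := valid_emp
  kfin := by simp
  kfin' := by intro e; rw [supp_emp]; exact Set.finite_empty
  τval := by
    intro a b hab
    rw [Set.mem_singleton_iff, Sym2.eq_iff] at hab
    rcases hab with ⟨rfl, rfl⟩ | ⟨rfl, rfl⟩
    · exact h
    · exact N_symm h
  τfin := Set.finite_singleton _

theorem one_symm (u v : S) (h : N u v) : one v u (N_symm h) = one u v h := by
  apply St.ext
  · rfl
  · show ({s(v, u)} : Set (Sym2 S)) = {s(u, v)}
    rw [Sym2.eq_swap]

theorem R_hop {n : ℕ} {g : S → ℕ} {u v : S} (h : adj u v) (hg : g u ≤ sc u v) :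
    R n g (one u u (N_self u)) (one u v (Or.inr h)) := by
  classical
  refine ⟨fun _ _ => Eqg.refl _ _, fun x => if x = u then v else x, fun x => ?_, ?_⟩
  · by_cases hx : x = u
    · subst hx
      simp only [if_true]
      refine ⟨Or.inr h, ?_⟩
      rw [D_ne (adj_ne h)]
      exact_mod_cast hg
    · simp only [hx, if_false]
      exact ⟨N_self x, by rw [D_self]; exact le_top⟩
  · intro a b _
    constructor
    · intro hab
      right
      refine ⟨u, rfl, ?_⟩
      simp only [if_true]
      exact hab.symm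
    · rintro (⟨h1, h2⟩ | ⟨x, h1, h2⟩)
      · have h3 : s(a, b) = s(u, u) := h2
        rw [Sym2.eq_iff] at h3
        rcases h3 with ⟨rfl, rfl⟩ | ⟨rfl, rfl⟩ <;> exact absurd rfl h1
      · have h3 : s(x, x) = s(u, u) := h1
        have hx : x = u := by
          rw [Sym2.eq_iff] at h3
          rcases h3 with ⟨h4, _⟩ | ⟨h4, _⟩ <;> exact h4
        subst hx
        simp only [if_true] at h2
        exact h2.symm

theorem R_high {n : ℕ} {g : S → ℕ} {u : S} (h : n < lev u) :
    R n g St.zero (one u u (N_self u)) := by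
  rw [R_zero_iff]
  refine ⟨fun _ _ => Eqg.refl _ _, fun a b hab h1 => ?_⟩
  have h3 : s(a, b) = s(u, u) := h1
  rw [Sym2.eq_iff] at h3
  rcases h3 with ⟨rfl, rfl⟩ | ⟨rfl, rfl⟩ <;> omega

theorem isClosed_level_zero : IsClosed {z : St S | ∃ u, lev u = 0 ∧ s(u, u) ∈ z.τ} := by
  rw [← isOpen_compl_iff, isOpen_iff]
  intro z hz
  refine ⟨0, fun _ => 0, fun z' hR => ?_⟩
  rintro ⟨u, hu, hu'⟩
  apply hz
  obtain ⟨_, f, hf, hr⟩ := hR
  rcases (hr u u (by omega)).1 hu' with ⟨h1, _⟩ | ⟨v, h1, h2⟩
  · exact absurd rfl h1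
  · rw [Sym2.eq_iff] at h2
    rcases h2 with ⟨rfl, _⟩ | ⟨rfl, _⟩ <;> exact ⟨v, hu, h1⟩

end Pool.Agent.H85.Rect
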