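import Pool.Agent.H85.Rect.Dyn

set_option autoImplicit false

/-!
# The state space, its topology and the rectification map
-/

namespace Pool.Agent.H85.Rect

open Geo

/-- The points of the space. -/
@[ext] structure St (S : Type) [Geo S] where
  /-- hidden arrays -/
  k : S → ℕ → ℕ → S
  /-- particles -/
  τ : Set (Sym2 S)
  kval : ∀ e, Valid e (k e)
  kfin : {e | k e ≠ emp e}.Finite
  kfin' : ∀ e, (supp e (k e)).Finite
  τval : ∀ a b, s(a, b) ∈ τ → N a b
  τfin : τ.Finite

variable {S : Type} [Geo S]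

/-- the set of ends of particles -/
def ends (ρ : Set (Sym2 S)) : Set S := {e | ∃ w, s(e, w) ∈ ρ}

omit [Geo S] in
theorem ends_finite {ρ : Set (Sym2 S)} (h : ρ.Finite) : (ends ρ).Finite := by
  have h1 : ∀ y ∈ ρ, {e : S | e ∈ y}.Finite := by
    intro y _
    induction y using Sym2.ind with
    | _ a b =>
      apply (Set.toFinite ({a, b} : Set S)).subset
      intro e he
      simpa using he
  apply (h.biUnion h1).subset
  rintro e ⟨w, hw⟩
  simp only [Set.mem_iUnion]
  exact ⟨s(e, w), hw, Sym2.mem_mk_left e w⟩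

theorem touched_finite {ρ τ : Set (Sym2 S)} {k : S → ℕ → ℕ → S} (h : ρ.Finite) :
    {y : Sym2 S | ∃ e w t, Touch ρ τ k e w t ∧ y = s(e, t)}.Finite := by
  have h1 : ∀ e ∈ ends ρ, {y : Sym2 S | ∃ w t, Touch ρ τ k e w t ∧ y = s(e, t)}.Finite := by
    intro e _
    apply Set.Subsingleton.finite
    rintro y ⟨w, t, ht, rfl⟩ y' ⟨w', t', ht', rfl⟩
    rw [(Touch_unique ht ht').2]
  apply ((ends_finite h).biUnion h1).subset
  rintro y ⟨e, w, t, ht, rfl⟩
  simp only [Set.mem_iUnion]
  exact ⟨e, ⟨w, ht.1.1⟩, w, t, ht, rfl⟩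

theorem tau1_finite {ρ τ : Set (Sym2 S)} {k : S → ℕ → ℕ → S} (h : ρ.Finite) (h' : τ.Finite) :
    (tau1 ρ τ k).Finite := by
  apply (h'.union (h.union (touched_finite (τ := τ) (k := k) h))).subset
  intro y hy
  induction y using Sym2.ind with
  | _ a b =>
    rw [mem_tau1] at hy
    rcases hy with ⟨hy, _⟩ | ⟨hy, _⟩
    · exact Or.inl hy
    · rcases hy with ⟨w, hy⟩ | ⟨w, hy⟩ | ⟨_, hy, _⟩
      · exact Or.inr (Or.inr ⟨a, w, b, hy, rfl⟩)
      · exact Or.inr (Or.inr ⟨b, w, a, hy, Sym2.eq_swap⟩)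
      · exact Or.inr (Or.inl hy)

/-- The action of the particles of `x` on `z`. -/
noncomputable def L (x z : St S) : St S where
  k := k1 x.τ z.τ z.k
  τ := tau1 x.τ z.τ z.k
  kval := by
    intro e
    by_cases h : ∃ w t, Touch x.τ z.τ z.k e w t
    · obtain ⟨w, t, h⟩ := h
      rw [k1_touch h]
      have hw : N e w := x.τval _ _ h.1.1
      by_cases hT : Tn x.τ z.τ e w t
      · rw [newk_pos hT]
        exact valid_tw hw (valid_push h.2.1.1 (z.kval e))
      · rw [newk_neg hT]
        exact valid_rest (valid_tw hw (z.kval e))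
    · push Not at h
      rw [k1_no h]
      exact z.kval e
  kfin := by
    apply (z.kfin.union (ends_finite x.τfin)).subset
    intro e he
    by_cases h : ∃ w t, Touch x.τ z.τ z.k e w t
    · obtain ⟨w, t, h⟩ := h
      exact Or.inr ⟨w, h.1.1⟩
    · push Not at h
      left
      rw [Set.mem_ofPred_eq, k1_no h] at he
      exact he
  kfin' := by
    intro e
    by_cases h : ∃ w t, Touch x.τ z.τ z.k e w t
    · obtain ⟨w, t, h⟩ := h
      rw [k1_touch h]
      by_cases hT : Tn x.τ z.τ e w t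
      · rw [newk_pos hT]
        exact finite_tw (finite_push (z.kfin' e))
      · rw [newk_neg hT]
        exact finite_rest (finite_tw (z.kfin' e))
    · push Not at h
      rw [k1_no h]
      exact z.kfin' e
  τval := by
    intro a b h
    rw [mem_tau1] at h
    rcases h with ⟨h, _⟩ | ⟨h, _⟩
    · exact z.τval a b h
    · rcases h with ⟨w, h⟩ | ⟨w, h⟩ | ⟨_, h, _⟩
      · exact h.2.1.1
      · exact N_symm h.2.1.1
      · exact x.τval a b h
  τfin := tau1_finite x.τfin z.τfin

/-- The empty configuration. -/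
def St.zero : St S where
  k := emp
  τ := ∅
  kval := valid_emp
  kfin := by simp
  kfin' := by intro e; rw [supp_emp]; exact Set.finite_empty
  τval := by intro a b h; exact absurd h (Set.notMem_empty _)
  τfin := Set.finite_empty

theorem L_L (x z : St S) : L x (L x z) = z :=
  St.ext k1_k1 tau1_tau1

open Classical in
/-- Twisting the hidden arrays of `z` by those of `x`. -/
noncomputable def Th (x z : St S) : St S where
  k := fun e j i => Equiv.swap e (x.k e j i) (z.k e j i)
  τ := z.τ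
  kval := fun e j i => valid_swap (x.kval e j i) (z.kval e j i)
  kfin := by
    apply (x.kfin.union z.kfin).subset
    intro e he
    by_contra h
    simp only [Set.mem_union, Set.mem_ofPred_eq, not_or, not_not] at h
    apply he
    funext j i
    rw [h.1, h.2]
    simp [emp]
  kfin' := by
    intro e
    apply ((x.kfin' e).union (z.kfin' e)).subset
    rintro ⟨j, i⟩ h
    by_contra hc
    simp only [supp, Set.mem_union, Set.mem_ofPred_eq, not_or, not_not] at hc
    apply h
    simp only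
    rw [hc.1, hc.2]
    simp
  τval := z.τval
  τfin := z.τfin

theorem Th_Th (x z : St S) : Th x (Th x z) = z := by
  apply St.ext
  · funext e j i
    simp [Th]
  · rfl

theorem L_zero (x : St S) : (L x St.zero).k = emp ∧ (L x St.zero).τ = x.τ :=
  ⟨k1_empty x.τval, tau1_empty x.τval⟩

theorem L_Th_self (x : St S) : L x (Th x x) = St.zero := by
  have h : Th x x = L x St.zero := by
    obtain ⟨h1, h2⟩ := L_zero x
    apply St.ext
    · rw [h1]
      funext e j i
      simp [Th, emp]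
    · rw [h2]; rfl
  rw [h, L_L]

/-! ### The topology -/

/-- The basic relation: `z'` is close to `z`. -/
def R (n : ℕ) (g : S → ℕ) (z z' : St S) : Prop :=
  (∀ u, lev u ≤ n → Eqg (g u) (z.k u) (z'.k u)) ∧
  ∃ f : S → S, (∀ u, N u (f u) ∧ (g u : ℕ∞) ≤ D u (f u)) ∧
    ∀ a b, lev a + lev b ≤ 2 * n →
      (s(a, b) ∈ z'.τ ↔ (a ≠ b ∧ s(a, b) ∈ z.τ) ∨ ∃ u, s(u, u) ∈ z.τ ∧ s(u, f u) = s(a, b))

theorem R_refl (n : ℕ) (g : S → ℕ) (z : St S) : R n g z z := by
  refine ⟨fun u _ => Eqg.refl _ _, id, fun u => ⟨N_self u, by simp [D_self]⟩, ?_⟩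
  intro a b _
  constructor
  · intro h
    by_cases hab : a = b
    · subst hab
      exact Or.inr ⟨a, h, rfl⟩
    · exact Or.inl ⟨hab, h⟩
  · rintro (⟨_, h⟩ | ⟨u, h, h2⟩)
    · exact h
    · rw [← h2]; exact h

theorem R_mono {n m : ℕ} {g h : S → ℕ} (hn : n ≤ m) (hg : ∀ u, g u ≤ h u) {z z' : St S}
    (hR : R m h z z') : R n g z z' := by
  obtain ⟨h1, f, h2, h3⟩ := hR
  refine ⟨fun u hu => (h1 u (hu.trans hn)).mono (hg u), f, fun u => ⟨(h2 u).1, ?_⟩, ?_⟩
  · exact le_trans (by exact_mod_cast hg u) (h2 u).2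
  · intro a b hab
    exact h3 a b (by omega)

theorem R_trans {n : ℕ} {g : S → ℕ} {z z' z'' : St S} (h : R n g z z') (h' : R n g z' z'') :
    R n g z z'' := by
  classical
  obtain ⟨h1, f, h2, h3⟩ := h
  obtain ⟨h1', f', h2', h3'⟩ := h'
  refine ⟨fun u hu => (h1 u hu).trans (h1' u hu), fun u => if f u = u then f' u else f u,
    fun u => ?_, ?_⟩
  · by_cases hu : f u = u
    · simp only [hu, if_true]; exact h2' u
    · simp only [hu, if_false]; exact h2 u
  · intro a b hab
    have key : ∀ u, s(u, f' u) = s(a, b) → (s(u, u) ∈ z'.τ ↔ s(u, u) ∈ z.τ ∧ f u = u) := by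
      intro u hu
      have hlev : lev u + lev u ≤ 2 * n := by
        have hN := N_lev (h2' u).1
        rw [Sym2.eq_iff] at hu
        rcases (h2' u).1 with h | h
        · rw [h] at hu
          rcases hu with ⟨rfl, h4⟩ | ⟨rfl, h4⟩
          · rw [← h4] at hab; omega
          · rw [← h4] at hab; omega
        · rcases adj_lev h with h | h <;>
            rcases hu with ⟨rfl, rfl⟩ | ⟨rfl, rfl⟩ <;> omega
      rw [h3 u u hlev]
      constructor
      · rintro (⟨h, _⟩ | ⟨v, h4, h5⟩)
        · exact absurd rfl h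
        · rw [Sym2.eq_iff] at h5
          have : v = u ∧ f v = u := by tauto
          obtain ⟨rfl, h6⟩ := this
          exact ⟨h4, h6⟩
      · rintro ⟨h4, h5⟩
        right
        exact ⟨u, h4, by rw [h5]⟩
    rw [h3' a b hab]
    constructor
    · rintro (⟨h4, h5⟩ | ⟨u, h4, h5⟩)
      · rw [h3 a b hab] at h5
        rcases h5 with h5 | ⟨u, h5, h6⟩
        · exact Or.inl h5
        · right
          refine ⟨u, h5, ?_⟩
          have : f u ≠ u := by
            intro h7
            rw [h7, Sym2.eq_iff] at h6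
            rcases h6 with ⟨h8, h9⟩ | ⟨h8, h9⟩ <;> exact h4 (by rw [← h8, ← h9])
          beta_reduce
          rw [if_neg this]; exact h6
      · right
        obtain ⟨h6, h7⟩ := (key u h5).1 h4
        refine ⟨u, h6, ?_⟩
        beta_reduce
        rw [if_pos h7]; exact h5
    · rintro (⟨h4, h5⟩ | ⟨u, h4, h5⟩)
      · left
        refine ⟨h4, ?_⟩
        rw [h3 a b hab]
        exact Or.inl ⟨h4, h5⟩
      · beta_reduce at h5
        by_cases hu : f u = u
        · rw [if_pos hu] at h5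
          right
          exact ⟨u, (key u h5).2 ⟨h4, hu⟩, h5⟩
        · rw [if_neg hu] at h5
          left
          constructor
          · rintro rfl
            rw [Sym2.eq_iff] at h5
            rcases h5 with ⟨h6, h7⟩ | ⟨h6, h7⟩ <;> exact hu (h7.trans h6.symm)
          · rw [h3 a b hab]
            exact Or.inr ⟨u, h4, h5⟩

instance : TopologicalSpace (St S) where
  IsOpen O := ∀ z ∈ O, ∃ n g, ∀ z', R n g z z' → z' ∈ O
  isOpen_univ := fun z _ => ⟨0, fun _ => 0, fun _ _ => trivial⟩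
  isOpen_inter := by
    rintro O O' h h' z ⟨hz, hz'⟩
    obtain ⟨n, g, h1⟩ := h z hz
    obtain ⟨n', g', h1'⟩ := h' z hz'
    exact ⟨max n n', fun u => max (g u) (g' u), fun z' hR =>
      ⟨h1 z' (R_mono (le_max_left _ _) (fun u => le_max_left _ _) hR),
        h1' z' (R_mono (le_max_right _ _) (fun u => le_max_right _ _) hR)⟩⟩
  isOpen_sUnion := by
    rintro 𝒪 h z ⟨O, hO, hz⟩
    obtain ⟨n, g, h1⟩ := h O hO z hz
    exact ⟨n, g, fun z' hR => ⟨O, hO, h1 z' hR⟩⟩

theorem isOpen_iff {O : Set (St S)} :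
    IsOpen O ↔ ∀ z ∈ O, ∃ n g, ∀ z', R n g z z' → z' ∈ O := Iff.rfl

theorem isOpen_R (n : ℕ) (g : S → ℕ) (z : St S) : IsOpen {z' | R n g z z'} := by
  rw [isOpen_iff]
  intro z' hz'
  exact ⟨n, g, fun z'' h => R_trans hz' h⟩

theorem nhds_basis (z : St S) :
    (nhds z).HasBasis (fun _ : ℕ × (S → ℕ) => True) (fun p => {z' | R p.1 p.2 z z'}) := by
  constructor
  intro t
  rw [mem_nhds_iff]
  constructor
  · rintro ⟨O, hO, hO', hz⟩
    obtain ⟨n, g, h⟩ := isOpen_iff.1 hO' z hz
    exact ⟨(n, g), trivial, fun z' hz' => hO (h z' hz')⟩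
  · rintro ⟨⟨n, g⟩, _, h⟩
    exact ⟨{z' | R n g z z'}, h, isOpen_R n g z, R_refl n g z⟩

theorem continuous_of (h : St S → St S → St S)
    (H : ∀ x z n g, ∃ m g', ∀ x' z', R m g' x x' → R m g' z z' → R n g (h x z) (h x' z')) :
    Continuous (fun p : St S × St S => h p.1 p.2) := by
  rw [continuous_iff_continuousAt]
  rintro ⟨x, z⟩
  rw [ContinuousAt, nhds_prod_eq]
  rw [((nhds_basis x).prod (nhds_basis z)).tendsto_iff (nhds_basis (h x z))]
  rintro ⟨n, g⟩ _
  obtain ⟨m, g', H'⟩ := H x z n g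
  refine ⟨((m, g'), (m, g')), ⟨trivial, trivial⟩, ?_⟩
  rintro ⟨x', z'⟩ ⟨h1, h2⟩
  exact H' x' z' h1 h2

theorem continuous_Th : Continuous (fun p : St S × St S => Th p.1 p.2) := by
  apply continuous_of
  intro x z n g
  refine ⟨n, g, fun x' z' hx hz => ?_⟩
  obtain ⟨h1, -⟩ := hx
  obtain ⟨h2, h3⟩ := hz
  refine ⟨fun u hu j hj => ?_, h3⟩
  simp only [Th]
  rw [h1 u hu j hj, h2 u hu j hj]

end Pool.Agent.H85.Rect
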